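import Mathlib

/-!
# Finite reduced algebras over the rational numbers
-/

set_option autoImplicit false

open TensorProduct

namespace Pool.Agent.R905.Ab

section

variable (E : Type) [CommRing E] [Algebra ℚ E] [Module.Finite ℚ E] [IsReduced E]

attribute [local instance] IsArtinianRing.fieldOfSubtypeIsMaximal

lemma unram : Algebra.FormallyUnramified ℚ E := by
  have h1 : IsArtinianRing E := IsArtinianRing.of_finite ℚ E
  have h2 : ∀ m : MaximalSpectrum E, Algebra.FormallyUnramified ℚ (E ⧸ m.asIdeal) := by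
    intro m
    have : Algebra.IsSeparable ℚ (E ⧸ m.asIdeal) := inferInstance
    exact Algebra.FormallyUnramified.of_isSeparable _ _
  exact Algebra.FormallyUnramified.of_equiv
    ((IsArtinianRing.equivPi E).restrictScalars ℚ).symm

lemma exists_eps : ∃ (ι : Type) (_ : Fintype ι) (ε : ι → E), ∑ i, ε i = 1 ∧
    (∀ i, ε i * ε i = ε i) ∧ ∀ i (e : E), ε i * e ≠ 0 → ∃ e', ε i * (e * e') = ε i := by
  classical
  have h1 : IsArtinianRing E := IsArtinianRing.of_finite ℚ E
  let φ := IsArtinianRing.equivPi E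
  have : Fintype (MaximalSpectrum E) := Fintype.ofFinite _
  refine ⟨MaximalSpectrum E, inferInstance, fun i => φ.symm (Pi.single i 1), ?_, ?_, ?_⟩
  · rw [← map_sum, Finset.univ_sum_single]
    exact map_one φ.symm
  · intro i
    rw [← map_mul, ← Pi.single_mul, one_mul]
  · intro i e he
    have h2 : φ e i ≠ 0 := by
      intro h3
      apply he
      apply φ.injective
      rw [map_mul, φ.apply_symm_apply, map_zero]
      ext j
      by_cases h4 : j = i
      · subst h4
        rw [Pi.mul_apply, h3, mul_zero, Pi.zero_apply]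
      · rw [Pi.mul_apply, Pi.single_eq_of_ne h4, zero_mul, Pi.zero_apply]
    refine ⟨φ.symm (Pi.single i (φ e i)⁻¹), ?_⟩
    apply φ.injective
    rw [map_mul, map_mul, φ.apply_symm_apply, φ.apply_symm_apply]
    ext j
    by_cases h4 : j = i
    · subst h4
      rw [Pi.mul_apply, Pi.mul_apply, Pi.single_eq_same, Pi.single_eq_same, one_mul,
        mul_inv_cancel₀ h2]
    · rw [Pi.mul_apply, Pi.single_eq_of_ne h4, zero_mul]

end

section

variable (E F : Type) [CommRing E] [Algebra ℚ E] [Module.Finite ℚ E] [IsReduced E]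
  [CommRing F] [Algebra ℚ F] [Module.Finite ℚ F] [IsReduced F]

lemma reduced_tensor : IsReduced (E ⊗[ℚ] F) := by
  have h1 := unram E
  have h2 := unram F
  have h3 : Algebra.FormallyUnramified ℚ (E ⊗[ℚ] F) := Algebra.FormallyUnramified.comp ℚ E _
  exact Algebra.FormallyUnramified.isReduced_of_field ℚ _

omit [Algebra ℚ E] [Module.Finite ℚ E] [Algebra ℚ F] [Module.Finite ℚ F] in
lemma reduced_prod : IsReduced (E × F) := by
  refine ⟨fun x hx => ?_⟩
  obtain ⟨n, hn⟩ := hx
  have h1 : x.1 = 0 := IsReduced.eq_zero _ ⟨n, congrArg Prod.fst hn⟩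
  have h2 : x.2 = 0 := IsReduced.eq_zero _ ⟨n, congrArg Prod.snd hn⟩
  exact Prod.ext h1 h2

end

end Pool.Agent.R905.Ab
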