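import Pool.Agent.R905.Ab.Uni
import Pool.Agent.R905.Ab.Etale

/-!
# Objects of CM type
-/

set_option autoImplicit false
set_option linter.unusedSectionVars false

open CategoryTheory Limits MonoidalCategory TensorProduct
open Pool.Agent.Y112.KD Pool.Agent.Y112.SR
open Pool.Agent.R905 (en)

namespace Pool.Agent.R905.Ab

universe v u w

section Defs

variable {C : Type u} [Category.{v} C] [Preadditive C] [Linear ℚ C] [MonoidalCategory C]
  [SymmetricCategory C] {K : Type w} [Field K]

/-- An action of the algebra `E` on `T` such that the realisation of `T` is generated, as a vector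
space over `K`, by the `E`-orbit of a vector `v`. -/
structure CMData (R : SuperRealisation C K) (T : C) (E : Type) [CommRing E] [Algebra ℚ E] where
  /-- the action -/
  ρ : E →ₐ[ℚ] End T
  /-- the generator -/
  v : R.H.obj T
  span : Submodule.span K (Set.range fun e : E => (R.H.map (ρ e : T ⟶ T)).hom v) = ⊤

/-- `T` has complex multiplication: there are a number field `L` which acts on `T` and a vector `v`
whose `L`-orbit generates the realisation of `T` as a vector space over `K`. -/
def HasCM (R : SuperRealisation C K) (T : C) : Prop :=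
  ∃ (L : Type) (_ : Field L) (_ : Algebra ℚ L) (_ : Module.Finite ℚ L), Nonempty (CMData R T L)

/-- The objects of CM type: the smallest class of objects which contains the objects with complex
multiplication and is closed under tensor products, direct sums and direct summands. -/
inductive CMType [HasBinaryBiproducts C] (R : SuperRealisation C K) : C → Prop
  | cm (T : C) : HasCM R T → CMType R T
  | tensor (M N : C) : CMType R M → CMType R N → CMType R (M ⊗ N)
  | sum (M N : C) : CMType R M → CMType R N → CMType R (M ⊞ N)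
  | summand (M N : C) (i : N ⟶ M) (r : M ⟶ N) : i ≫ r = 𝟙 N → CMType R M → CMType R N

end Defs

section Tensor

variable {C : Type u} [Category.{v} C] [Preadditive C] [Linear ℚ C] [MonoidalCategory C]
  [MonoidalPreadditive C] [MonoidalLinear ℚ C]
  [SymmetricCategory C] {K : Type w} [Field K] {R : SuperRealisation C K}

/-- The action on a tensor product through the first factor. -/
def actL (M N : C) : End M →ₐ[ℚ] End (M ⊗ N) where
  toFun f := (f : M ⟶ M) ▷ N
  map_one' := id_whiskerRight M N
  map_mul' f g := comp_whiskerRight (g : M ⟶ M) (f : M ⟶ M) N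
  map_zero' := MonoidalPreadditive.zero_whiskerRight
  map_add' f g := MonoidalPreadditive.add_whiskerRight _ _
  commutes' q := by
    rw [Algebra.algebraMap_eq_smul_one, Algebra.algebraMap_eq_smul_one]
    exact (MonoidalLinear.smul_whiskerRight q (𝟙 M) N).trans
      (congrArg (fun z => q • z) (id_whiskerRight M N))

/-- The action on a tensor product through the second factor. -/
def actR (M N : C) : End N →ₐ[ℚ] End (M ⊗ N) where
  toFun f := M ◁ (f : N ⟶ N)
  map_one' := MonoidalCategory.whiskerLeft_id M N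
  map_mul' f g := MonoidalCategory.whiskerLeft_comp M (g : N ⟶ N) (f : N ⟶ N)
  map_zero' := MonoidalPreadditive.whiskerLeft_zero
  map_add' f g := MonoidalPreadditive.whiskerLeft_add _ _
  commutes' q := by
    rw [Algebra.algebraMap_eq_smul_one, Algebra.algebraMap_eq_smul_one]
    exact (MonoidalLinear.whiskerLeft_smul M q (𝟙 N)).trans
      (congrArg (fun z => q • z) (MonoidalCategory.whiskerLeft_id M N))

lemma map_tensor_el {M N : C} (f : M ⟶ M) (g : N ⟶ N) (x : R.H.obj M) (y : R.H.obj N) :
    (R.H.map (f ▷ N ≫ M ◁ g)).hom ((Functor.LaxMonoidal.μ R.H M N).hom (x ⊗ₜ[K] y)) =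
      (Functor.LaxMonoidal.μ R.H M N).hom (((R.H.map f).hom x) ⊗ₜ[K] ((R.H.map g).hom y)) := by
  rw [Functor.map_comp, ModuleCat.hom_comp, LinearMap.comp_apply]
  erw [map_whiskerRight_el, map_whiskerLeft_el]

/-- The action on a tensor product. -/
noncomputable def tensorAct {M N : C} {E F : Type} [CommRing E] [Algebra ℚ E] [CommRing F]
    [Algebra ℚ F] (c : E →ₐ[ℚ] End M) (d : F →ₐ[ℚ] End N) : E ⊗[ℚ] F →ₐ[ℚ] End (M ⊗ N) :=
  Algebra.TensorProduct.lift ((actL M N).comp c) ((actR M N).comp d) fun e f => by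
    change (actL M N (c e)) * (actR M N (d f)) = (actR M N (d f)) * (actL M N (c e))
    rw [End.mul_def, End.mul_def]
    exact whisker_exchange (c e : M ⟶ M) (d f : N ⟶ N)

lemma tensorAct_tmul {M N : C} {E F : Type} [CommRing E] [Algebra ℚ E] [CommRing F]
    [Algebra ℚ F] (c : E →ₐ[ℚ] End M) (d : F →ₐ[ℚ] End N) (e : E) (f : F) :
    (tensorAct c d (e ⊗ₜ f) : M ⊗ N ⟶ M ⊗ N) = (c e : M ⟶ M) ▷ N ≫ M ◁ (d f : N ⟶ N) := by
  rw [tensorAct, Algebra.TensorProduct.lift_tmul, End.mul_def]
  exact whisker_exchange (c e : M ⟶ M) (d f : N ⟶ N)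

/-- Tensor products of actions with a generator. -/
noncomputable def CMData.tensor {M N : C} {E F : Type} [CommRing E] [Algebra ℚ E] [CommRing F]
    [Algebra ℚ F] (c : CMData R M E) (d : CMData R N F) : CMData R (M ⊗ N) (E ⊗[ℚ] F) where
  ρ := tensorAct c.ρ d.ρ
  v := (Functor.LaxMonoidal.μ R.H M N).hom (c.v ⊗ₜ[K] d.v)
  span := by
    set S := Submodule.span K (Set.range fun e : E ⊗[ℚ] F =>
      (R.H.map (tensorAct c.ρ d.ρ e : M ⊗ N ⟶ M ⊗ N)).hom
        ((Functor.LaxMonoidal.μ R.H M N).hom (c.v ⊗ₜ[K] d.v))) with hS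
    have h1 : ∀ (e : E) (f : F), (Functor.LaxMonoidal.μ R.H M N).hom
        (((R.H.map (c.ρ e : M ⟶ M)).hom c.v) ⊗ₜ[K] ((R.H.map (d.ρ f : N ⟶ N)).hom d.v)) ∈ S := by
      intro e f
      apply Submodule.subset_span
      refine ⟨e ⊗ₜ f, ?_⟩
      change (R.H.map (tensorAct c.ρ d.ρ (e ⊗ₜ f) : M ⊗ N ⟶ M ⊗ N)).hom _ = _
      rw [tensorAct_tmul]
      exact map_tensor_el _ _ _ _
    have h2 : ∀ (x : R.H.obj M) (y : R.H.obj N),
        (Functor.LaxMonoidal.μ R.H M N).hom (x ⊗ₜ[K] y) ∈ S := by
      intro x y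
      have hx : x ∈ Submodule.span K (Set.range fun e : E => (R.H.map (c.ρ e : M ⟶ M)).hom c.v) :=
        c.span ▸ Submodule.mem_top
      have hy : y ∈ Submodule.span K (Set.range fun e : F => (R.H.map (d.ρ e : N ⟶ N)).hom d.v) :=
        d.span ▸ Submodule.mem_top
      induction hx using Submodule.span_induction with
      | mem x hx =>
        obtain ⟨e, rfl⟩ := hx
        induction hy using Submodule.span_induction with
        | mem y hy =>
          obtain ⟨f, rfl⟩ := hy
          exact h1 e f
        | zero => rw [TensorProduct.tmul_zero, map_zero]; exact S.zero_mem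
        | add a b _ _ ha hb => rw [TensorProduct.tmul_add, map_add]; exact S.add_mem ha hb
        | smul a b _ hb => rw [TensorProduct.tmul_smul, map_smul]; exact S.smul_mem _ hb
      | zero => rw [TensorProduct.zero_tmul, map_zero]; exact S.zero_mem
      | add a b _ _ ha hb => rw [TensorProduct.add_tmul, map_add]; exact S.add_mem ha hb
      | smul a b _ hb =>
        rw [← TensorProduct.smul_tmul', map_smul]
        exact S.smul_mem _ hb
    rw [eq_top_iff]
    intro z _
    obtain ⟨t, rfl⟩ : ∃ t : R.H.obj M ⊗[K] R.H.obj N,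
        (Functor.LaxMonoidal.μ R.H M N).hom t = z := by
      refine ⟨(Functor.OplaxMonoidal.δ R.H M N).hom z, ?_⟩
      have h3 := congrArg ModuleCat.Hom.hom (Functor.Monoidal.δ_μ R.H M N)
      exact LinearMap.congr_fun h3 z
    induction t using TensorProduct.induction_on with
    | zero => rw [map_zero]; exact S.zero_mem
    | add a b ha hb =>
      rw [map_add]
      exact S.add_mem (ha Submodule.mem_top) (hb Submodule.mem_top)
    | tmul x y => exact h2 x y

end Tensor

section Sum

variable {C : Type u} [Category.{v} C] [Preadditive C] [HasBinaryBiproducts C] [Linear ℚ C]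
  [MonoidalCategory C] [SymmetricCategory C] {K : Type w} [Field K] {R : SuperRealisation C K}

/-- The action on a direct sum. -/
noncomputable def sumAct {M N : C} {E F : Type} [CommRing E] [Algebra ℚ E] [CommRing F]
    [Algebra ℚ F] (c : E →ₐ[ℚ] End M) (d : F →ₐ[ℚ] End N) : (E × F) →ₐ[ℚ] End (M ⊞ N) where
  toFun x := biprod.map (c x.1 : M ⟶ M) (d x.2 : N ⟶ N)
  map_one' := by
    rw [Prod.fst_one, Prod.snd_one, map_one, map_one]
    change biprod.map (𝟙 M) (𝟙 N) = 𝟙 (M ⊞ N)
    ext <;> simp
  map_mul' x y := by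
    rw [Prod.fst_mul, Prod.snd_mul, map_mul, map_mul, End.mul_def, End.mul_def, End.mul_def]
    change biprod.map ((c y.1 : M ⟶ M) ≫ (c x.1 : M ⟶ M)) ((d y.2 : N ⟶ N) ≫ (d x.2 : N ⟶ N)) =
      biprod.map (c y.1 : M ⟶ M) (d y.2 : N ⟶ N) ≫ biprod.map (c x.1 : M ⟶ M) (d x.2 : N ⟶ N)
    ext <;> simp
  map_zero' := by
    rw [Prod.fst_zero, Prod.snd_zero, map_zero, map_zero]
    change biprod.map (0 : M ⟶ M) (0 : N ⟶ N) = 0
    ext <;> simp
  map_add' x y := by
    rw [Prod.fst_add, Prod.snd_add, map_add, map_add]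
    change biprod.map ((c x.1 : M ⟶ M) + (c y.1 : M ⟶ M)) ((d x.2 : N ⟶ N) + (d y.2 : N ⟶ N)) =
      biprod.map (c x.1 : M ⟶ M) (d x.2 : N ⟶ N) + biprod.map (c y.1 : M ⟶ M) (d y.2 : N ⟶ N)
    ext <;> simp
  commutes' q := by
    rw [Algebra.algebraMap_eq_smul_one, Prod.smul_fst, Prod.smul_snd, Prod.fst_one, Prod.snd_one,
      map_smul, map_smul, map_one, map_one, Algebra.algebraMap_eq_smul_one]
    change biprod.map (q • 𝟙 M) (q • 𝟙 N) = q • 𝟙 (M ⊞ N)
    ext <;> simp

/-- Direct sums of actions with a generator. -/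
noncomputable def CMData.sum {M N : C} {E F : Type} [CommRing E] [Algebra ℚ E] [CommRing F]
    [Algebra ℚ F] (c : CMData R M E) (d : CMData R N F) : CMData R (M ⊞ N) (E × F) where
  ρ := sumAct c.ρ d.ρ
  v := (R.H.map biprod.inl).hom c.v + (R.H.map biprod.inr).hom d.v
  span := by
    set S := Submodule.span K (Set.range fun e : E × F =>
      (R.H.map (sumAct c.ρ d.ρ e : M ⊞ N ⟶ M ⊞ N)).hom
        ((R.H.map biprod.inl).hom c.v + (R.H.map biprod.inr).hom d.v)) with hS
    have h0 : ∀ (e : E) (f : F), (R.H.map (sumAct c.ρ d.ρ (e, f) : M ⊞ N ⟶ M ⊞ N)).hom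
        ((R.H.map biprod.inl).hom c.v + (R.H.map biprod.inr).hom d.v) =
        (R.H.map biprod.inl).hom ((R.H.map (c.ρ e : M ⟶ M)).hom c.v) +
        (R.H.map biprod.inr).hom ((R.H.map (d.ρ f : N ⟶ N)).hom d.v) := by
      intro e f
      have e1 : (sumAct c.ρ d.ρ (e, f) : M ⊞ N ⟶ M ⊞ N) =
        biprod.map (c.ρ e : M ⟶ M) (d.ρ f : N ⟶ N) := rfl
      rw [map_add, ← LinearMap.comp_apply, ← LinearMap.comp_apply, ← LinearMap.comp_apply,
        ← LinearMap.comp_apply, ← ModuleCat.hom_comp, ← ModuleCat.hom_comp, ← ModuleCat.hom_comp,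
        ← ModuleCat.hom_comp, ← Functor.map_comp, ← Functor.map_comp, ← Functor.map_comp,
        ← Functor.map_comp, e1, biprod.inl_map, biprod.inr_map]
    have h1 : ∀ e : E, (R.H.map biprod.inl).hom ((R.H.map (c.ρ e : M ⟶ M)).hom c.v) ∈ S := by
      intro e
      apply Submodule.subset_span
      refine ⟨(e, 0), ?_⟩
      refine (h0 e 0).trans ?_
      have h2 : (d.ρ 0 : N ⟶ N) = 0 := map_zero d.ρ
      rw [h2, Functor.map_zero, ModuleCat.hom_zero, LinearMap.zero_apply, map_zero, add_zero]
    have h2 : ∀ f : F, (R.H.map biprod.inr).hom ((R.H.map (d.ρ f : N ⟶ N)).hom d.v) ∈ S := by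
      intro f
      apply Submodule.subset_span
      refine ⟨(0, f), ?_⟩
      refine (h0 0 f).trans ?_
      have h2 : (c.ρ 0 : M ⟶ M) = 0 := map_zero c.ρ
      rw [h2, Functor.map_zero, ModuleCat.hom_zero, LinearMap.zero_apply, map_zero, zero_add]
    have h3 : ∀ x : R.H.obj M, (R.H.map biprod.inl).hom x ∈ S := by
      intro x
      have hx : x ∈ Submodule.span K (Set.range fun e : E => (R.H.map (c.ρ e : M ⟶ M)).hom c.v) :=
        c.span ▸ Submodule.mem_top
      induction hx using Submodule.span_induction with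
      | mem x hx =>
        obtain ⟨e, rfl⟩ := hx
        exact h1 e
      | zero => rw [map_zero]; exact S.zero_mem
      | add a b _ _ ha hb => rw [map_add]; exact S.add_mem ha hb
      | smul a b _ hb => rw [map_smul]; exact S.smul_mem _ hb
    have h4 : ∀ x : R.H.obj N, (R.H.map biprod.inr).hom x ∈ S := by
      intro x
      have hx : x ∈ Submodule.span K (Set.range fun e : F => (R.H.map (d.ρ e : N ⟶ N)).hom d.v) :=
        d.span ▸ Submodule.mem_top
      induction hx using Submodule.span_induction with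
      | mem x hx =>
        obtain ⟨e, rfl⟩ := hx
        exact h2 e
      | zero => rw [map_zero]; exact S.zero_mem
      | add a b _ _ ha hb => rw [map_add]; exact S.add_mem ha hb
      | smul a b _ hb => rw [map_smul]; exact S.smul_mem _ hb
    rw [eq_top_iff]
    intro z _
    have h5 : z = (R.H.map biprod.inl).hom ((R.H.map biprod.fst).hom z) +
        (R.H.map biprod.inr).hom ((R.H.map biprod.snd).hom z) := by
      rw [← LinearMap.comp_apply, ← LinearMap.comp_apply, ← ModuleCat.hom_comp,
        ← ModuleCat.hom_comp, ← Functor.map_comp, ← Functor.map_comp, ← LinearMap.add_apply,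
        ← ModuleCat.hom_add, ← Functor.map_add, biprod.total, CategoryTheory.Functor.map_id]
      rfl
    rw [h5]
    exact S.add_mem (h3 _) (h4 _)

end Sum

end Pool.Agent.R905.Ab
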