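import Pool.Agent.R905.Ab.Cm

/-!
# Objects of CM type have no numerically trivial morphisms from the unit
-/

set_option autoImplicit false
set_option linter.unusedSectionVars false

open CategoryTheory Limits MonoidalCategory TensorProduct
open Pool.Agent.Y112.KD Pool.Agent.Y112.SR
open Pool.Agent.R905 (en)

namespace Pool.Agent.R905.Ab

universe v u w

section

variable {C : Type u} [Category.{v} C] [Abelian C] [Linear ℚ C] [MonoidalCategory C]
  [MonoidalPreadditive C] [MonoidalLinear ℚ C] [SymmetricCategory C] [RightRigidCategory C]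
  {K : Type w} [Field K] {R : SuperRealisation C K} (Φ : Frobenius R)

include Φ in
/-- Non zero morphisms from the unit to an object with an action with a generator are numerically
non trivial. -/
theorem CMData.nontrivial (hU : UnitQ C) {T : C} {E : Type} [CommRing E] [Algebra ℚ E]
    [Module.Finite ℚ E] [IsReduced E] (c : CMData R T E) (f : 𝟙_ C ⟶ T) (hf : f ≠ 0) :
    ∃ g : T ⟶ 𝟙_ C, f ≫ g ≠ 0 := by
  have hc := R_charZero R
  obtain ⟨ι, _, ε, h1, h2, h3⟩ := exists_eps E
  -- a component with `f ≠ 0`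
  obtain ⟨i, hi⟩ : ∃ i, f ≫ (c.ρ (ε i) : T ⟶ T) ≠ 0 := by
    by_contra hne
    push Not at hne
    apply hf
    have h4 : f = f ≫ ((c.ρ 1 : End T) : T ⟶ T) := by
      rw [map_one]
      exact (Category.comp_id f).symm
    rw [h4, ← h1, map_sum]
    have h5 : f ≫ ((∑ i, c.ρ (ε i) : End T) : T ⟶ T) = ∑ i, f ≫ (c.ρ (ε i) : T ⟶ T) :=
      Preadditive.comp_sum _ _ _
    rw [h5]
    exact Finset.sum_eq_zero fun i _ => hne i
  have hidem : (c.ρ (ε i) : T ⟶ T) ≫ (c.ρ (ε i) : T ⟶ T) = c.ρ (ε i) := by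
    have h4 : c.ρ (ε i) * c.ρ (ε i) = c.ρ (ε i) := by rw [← map_mul, h2]
    exact h4
  have := Idempotents.isIdempotentComplete_of_abelian C
  obtain ⟨T', j, r, h4, h5⟩ := IsIdempotentComplete.idempotents_split T _ hidem
  have hf' : f ≫ r ≠ 0 := by
    intro h6
    apply hi
    rw [← h5, ← Category.assoc, h6, zero_comp]
  have hmul : ∀ a b : E, (c.ρ (a * b) : T ⟶ T) = (c.ρ b : T ⟶ T) ≫ (c.ρ a : T ⟶ T) := by
    intro a b
    exact map_mul c.ρ a b
  have hr : ∀ e : E, (c.ρ e : T ⟶ T) ≫ r = (c.ρ (ε i * e) : T ⟶ T) ≫ r := by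
    intro e
    have h6 : r = (c.ρ (ε i) : T ⟶ T) ≫ r := by rw [← h5, Category.assoc, h4, Category.comp_id]
    rw [hmul, Category.assoc, ← h6]
  -- the linear map `e ↦ f ≫ ρ e ≫ r`
  let A : E →ₗ[ℚ] (𝟙_ C ⟶ T') :=
    { toFun := fun e => f ≫ (c.ρ e : T ⟶ T) ≫ r
      map_add' := fun a b => by
        have h6 : (c.ρ (a + b) : T ⟶ T) = (c.ρ a : T ⟶ T) + (c.ρ b : T ⟶ T) := map_add c.ρ a b
        rw [h6, Preadditive.add_comp, Preadditive.comp_add]
      map_smul' := fun q a => by
        have h6 : (c.ρ (q • a) : T ⟶ T) = q • (c.ρ a : T ⟶ T) := map_smul c.ρ q a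
        rw [h6, Linear.smul_comp, Linear.comp_smul, RingHom.id_apply] }
  let M : E →ₗ[ℚ] E := LinearMap.mulLeft ℚ (ε i)
  have hker : LinearMap.ker A ≤ LinearMap.ker M := by
    intro e he
    have he' : f ≫ (c.ρ e : T ⟶ T) ≫ r = 0 := he
    change ε i * e = 0
    by_contra hne
    obtain ⟨e', he1⟩ := h3 i e hne
    apply hi
    have h6 : f ≫ (c.ρ (ε i * e) : T ⟶ T) = 0 := by
      have h7 : (c.ρ (ε i * e) : T ⟶ T) = ((c.ρ e : T ⟶ T) ≫ r) ≫ j := by
        rw [hmul, Category.assoc, h5]
      rw [h7, ← Category.assoc, ← Category.assoc, Category.assoc f, he', zero_comp]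
    have h7 : ε i = e' * (ε i * e) := he1.symm.trans (by ring)
    rw [h7, hmul, ← Category.assoc, h6, zero_comp]
  have hfin := (Φ.finrank_le hU T').1
  have hA := A.finrank_range_add_finrank_ker
  have hM := M.finrank_range_add_finrank_ker
  have hkk := Submodule.finrank_mono hker
  have hAr : Module.finrank ℚ (LinearMap.range A) ≤ Module.finrank ℚ (𝟙_ C ⟶ T') :=
    Submodule.finrank_le _
  -- the dimension of the realisation of `T'`
  have hdim : Module.finrank K (R.H.obj T') ≤ Module.finrank ℚ (LinearMap.range M) := by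
    let b := Module.finBasis ℚ (LinearMap.range M)
    let w : Fin (Module.finrank ℚ (LinearMap.range M)) → R.H.obj T' := fun k =>
      (R.H.map ((c.ρ (b k : E) : T ⟶ T) ≫ r)).hom c.v
    have hw : ∀ x ∈ LinearMap.range M,
        (R.H.map ((c.ρ x : T ⟶ T) ≫ r)).hom c.v ∈ Submodule.span K (Set.range w) := by
      intro x hx
      have h6 := b.sum_repr ⟨x, hx⟩
      have h7 : x = ∑ k, b.repr ⟨x, hx⟩ k • (b k : E) := by
        have h8 := congrArg (LinearMap.range M).subtype h6
        rw [map_sum] at h8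
        refine h8.symm.trans (Finset.sum_congr rfl fun k _ => ?_)
        rw [map_smul]
        rfl
      have h9 : (c.ρ x : T ⟶ T) ≫ r = ∑ k, b.repr ⟨x, hx⟩ k • ((c.ρ (b k : E) : T ⟶ T) ≫ r) := by
        have h10 : c.ρ x = ∑ k, b.repr ⟨x, hx⟩ k • c.ρ (b k : E) := by
          conv_lhs => rw [h7]
          rw [map_sum]
          exact Finset.sum_congr rfl fun k _ => map_smul _ _ _
        have h11 : (c.ρ x : T ⟶ T) = ∑ k, b.repr ⟨x, hx⟩ k • (c.ρ (b k : E) : T ⟶ T) := h10
        rw [h11, Preadditive.sum_comp]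
        exact Finset.sum_congr rfl fun k _ => Linear.smul_comp _ _ _ _ _ _
      rw [h9, Functor.map_sum, ModuleCat.hom_sum, LinearMap.sum_apply]
      refine Submodule.sum_mem _ fun k _ => ?_
      rw [R_smul, ModuleCat.hom_smul, LinearMap.smul_apply]
      exact Submodule.smul_mem _ _ (Submodule.subset_span ⟨k, rfl⟩)
    have htop : (⊤ : Submodule K (R.H.obj T')) ≤ Submodule.span K (Set.range w) := by
      intro z _
      have h6 : z = (R.H.map r).hom ((R.H.map j).hom z) := by
        rw [← LinearMap.comp_apply, ← ModuleCat.hom_comp, ← Functor.map_comp, h4,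
          CategoryTheory.Functor.map_id]
        rfl
      rw [h6]
      generalize (R.H.map j).hom z = y
      have hy : y ∈ Submodule.span K (Set.range fun e : E => (R.H.map (c.ρ e : T ⟶ T)).hom c.v) :=
        c.span ▸ Submodule.mem_top
      induction hy using Submodule.span_induction with
      | mem y hy =>
        obtain ⟨e, rfl⟩ := hy
        have h7 : (R.H.map r).hom ((R.H.map (c.ρ e : T ⟶ T)).hom c.v) =
            (R.H.map ((c.ρ e : T ⟶ T) ≫ r)).hom c.v := by
          rw [Functor.map_comp, ModuleCat.hom_comp, LinearMap.comp_apply]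
        change (R.H.map r).hom ((R.H.map (c.ρ e : T ⟶ T)).hom c.v) ∈ _
        rw [h7, hr]
        exact hw _ ⟨e, rfl⟩
      | zero => rw [map_zero]; exact Submodule.zero_mem _
      | add a b _ _ ha hb => rw [map_add]; exact Submodule.add_mem _ ha hb
      | smul a b _ hb => rw [map_smul]; exact Submodule.smul_mem _ _ hb
    rw [← finrank_top K (R.H.obj T'), show (⊤ : Submodule K (R.H.obj T')) =
      Submodule.span K (Set.range w) from le_antisymm htop le_top]
    exact (finrank_range_le_card w).trans (by simp)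
  have hfinH := R.finite T'
  have hmult : Φ.mult T' ≤ Module.finrank K (R.H.obj T') := Submodule.finrank_le _
  have hrank := (Φ.finrank_le hU T').2
  have huni := Φ.uni_of_mult hU (X := T') (by omega)
  obtain ⟨g, hg⟩ := Φ.nontrivial hU (Φ.mult T') T' huni rfl (by omega) (f ≫ r) hf'
  exact ⟨r ≫ g, by rwa [← Category.assoc]⟩

/-- Objects of CM type are direct summands of objects with an action of a finite reduced algebra
with a generator. -/
theorem CMType.exists_data {N : C} (h : CMType R N) : ∃ (T : C) (E : Type) (_ : CommRing E)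
    (_ : Algebra ℚ E) (_ : Module.Finite ℚ E) (_ : IsReduced E) (_ : CMData R T E) (i : N ⟶ T)
    (r : T ⟶ N), i ≫ r = 𝟙 N := by
  induction h with
  | cm T h =>
    obtain ⟨L, _, _, _, ⟨c⟩⟩ := h
    exact ⟨T, L, inferInstance, inferInstance, inferInstance, inferInstance, c, 𝟙 T, 𝟙 T,
      Category.comp_id _⟩
  | tensor M N _ _ hM hN =>
    obtain ⟨T, E, _, _, _, _, c, i, r, h1⟩ := hM
    obtain ⟨T', E', _, _, _, _, c', i', r', h1'⟩ := hN
    refine ⟨T ⊗ T', E ⊗[ℚ] E', inferInstance, inferInstance, inferInstance, reduced_tensor E E',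
      c.tensor c', i ⊗ₘ i', r ⊗ₘ r', ?_⟩
    rw [tensorHom_comp_tensorHom, h1, h1', id_tensorHom_id]
  | sum M N _ _ hM hN =>
    obtain ⟨T, E, _, _, _, _, c, i, r, h1⟩ := hM
    obtain ⟨T', E', _, _, _, _, c', i', r', h1'⟩ := hN
    refine ⟨T ⊞ T', E × E', inferInstance, inferInstance, inferInstance, reduced_prod E E',
      c.sum c', biprod.map i i', biprod.map r r', ?_⟩
    ext <;> simp [h1, h1']
  | summand M N i r h1 _ hM =>
    obtain ⟨T, E, _, _, _, _, c, i', r', h1'⟩ := hM
    exact ⟨T, E, inferInstance, inferInstance, inferInstance, inferInstance, c, i ≫ i', r' ≫ r, by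
      rw [Category.assoc, reassoc_of% h1', h1]⟩

include Φ in
/-- Non zero morphisms from the unit to an object of CM type are numerically non trivial. -/
theorem CMType.nontrivial (hU : UnitQ C) {N : C} (h : CMType R N) (f : 𝟙_ C ⟶ N) (hf : f ≠ 0) :
    ∃ g : N ⟶ 𝟙_ C, f ≫ g ≠ 0 := by
  obtain ⟨T, E, _, _, _, _, c, i, r, h1⟩ := h.exists_data
  obtain ⟨g, hg⟩ := c.nontrivial Φ hU (f ≫ i) (by
    intro h2
    apply hf
    rw [← Category.comp_id f, ← h1, ← Category.assoc, h2, zero_comp])
  exact ⟨i ≫ g, by rwa [← Category.assoc]⟩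

end

end Pool.Agent.R905.Ab
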