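import Mathlib

/-!
# The multiplicity of the eigenvalue one from supertraces of powers
-/

set_option autoImplicit false

open Polynomial Module

namespace Pool.Agent.R905.Ab

section

variable {K : Type*} [Field K] {V : Type*} [AddCommGroup V] [Module K V]

/-- If `1` is not an eigenvalue of `T` on the `-1`-eigenspace of the commuting involution `P`, then
`P` is the identity on the generalized eigenspace. -/
lemma inv_eq_self [CharZero K] (T P : End K V) (hc : Commute T P) (hP : P * P = 1)
    (hw : ∀ v, T v = v → P v = -v → v = 0) {v : V} (hv : v ∈ T.maxGenEigenspace 1) : P v = v := by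
  have key : ∀ (k : ℕ) (w : V), ((T - 1) ^ k) w = 0 → P w = -w → w = 0 := by
    intro k
    induction k with
    | zero =>
      intro w hw1 _
      simpa using hw1
    | succ k ih =>
      intro w hw1 hw2
      have h1 : ((T - 1) ^ k) ((T - 1) w) = 0 := by
        rw [pow_succ] at hw1
        exact hw1
      have h2 : P ((T - 1) w) = -((T - 1) w) := by
        have h3 := LinearMap.congr_fun hc.eq w
        simp only [Module.End.mul_apply] at h3
        simp only [LinearMap.sub_apply, Module.End.one_apply, map_sub, ← h3, hw2, map_neg]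
        abel
      have h3 := ih _ h1 h2
      simp only [LinearMap.sub_apply, Module.End.one_apply] at h3
      exact hw w (sub_eq_zero.mp h3) hw2
  rw [Module.End.mem_maxGenEigenspace] at hv
  obtain ⟨k, hk⟩ := hv
  rw [one_smul] at hk
  have hc' : Commute ((T - 1) ^ k) P := (hc.sub_left (Commute.one_left P)).pow_left k
  have h1 : ((T - 1) ^ k) (v - P v) = 0 := by
    have h3 := LinearMap.congr_fun hc'.eq v
    simp only [Module.End.mul_apply] at h3
    rw [map_sub, h3, hk, map_zero, sub_zero]
  have h2 : P (v - P v) = -(v - P v) := by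
    have h3 := LinearMap.congr_fun hP v
    simp only [Module.End.mul_apply, Module.End.one_apply] at h3
    rw [map_sub, h3]
    abel
  exact (sub_eq_zero.mp (key k _ h1 h2)).symm

/-- The supertrace of a suitable polynomial in `T` is the multiplicity of the eigenvalue `1`. -/
lemma trace_aeval [CharZero K] [Module.Finite K V] (T P : End K V) (hc : Commute T P)
    (hP : P * P = 1) (hw : ∀ v, T v = v → P v = -v → v = 0) (f : K[X]) (m : ℕ)
    (h1 : (X - C 1) ^ m ∣ f - 1) (h2 : T.charpoly ∣ (X - C 1) ^ m * f) (hm : finrank K V ≤ m) :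
    LinearMap.trace K V (aeval T f * P) = finrank K (T.maxGenEigenspace 1) := by
  have hker : aeval T ((X - C 1) ^ m * f) = 0 := by
    obtain ⟨g, hg⟩ := h2
    rw [hg, map_mul, LinearMap.aeval_self_charpoly, zero_mul]
  have hproj : LinearMap.IsProj (T.maxGenEigenspace 1) (aeval T f) := by
    refine ⟨fun x => ?_, fun x hx => ?_⟩
    · rw [Module.End.mem_maxGenEigenspace]
      refine ⟨m, ?_⟩
      rw [map_mul, map_pow, map_sub, aeval_X, map_one, map_one] at hker
      have h3 := LinearMap.congr_fun hker x
      rw [one_smul]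
      exact h3
    · rw [Module.End.maxGenEigenspace_eq_genEigenspace_finrank] at hx
      have hx' := (T.genEigenspace 1).monotone (show ((finrank K V : ℕ) : ℕ∞) ≤ (m : ℕ∞) by
        exact_mod_cast hm) hx
      rw [Module.End.mem_genEigenspace_nat, one_smul, LinearMap.mem_ker] at hx'
      obtain ⟨g, hg⟩ := h1
      have h3 : aeval T f = 1 + aeval T g * (T - 1) ^ m := by
        have h4 : f = 1 + g * (X - C 1) ^ m := by
          rw [mul_comm g, ← hg]
          ring
        conv_lhs => rw [h4]
        simp
      rw [h3, LinearMap.add_apply, Module.End.mul_apply, hx', map_zero, add_zero,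
        Module.End.one_apply]
  have hcomm : Commute (aeval T f) P := by
    refine (Algebra.commute_of_mem_adjoin_singleton_of_commute (R := K) ?_ hc.symm).symm
    exact aeval_mem_adjoin_singleton K T
  have hE : aeval T f * P = aeval T f := by
    rw [hcomm.eq]
    apply LinearMap.ext
    intro x
    exact inv_eq_self T P hc hP hw (hproj.map_mem x)
  rw [hE]
  exact hproj.trace

/-- Separation of the root `1`. -/
lemma exists_poly (χ : K[X]) (hχ : χ ≠ 0) (n : ℕ) : ∃ (f : K[X]) (m : ℕ), n ≤ m ∧ 0 < m ∧
    (X - C 1) ^ m ∣ f - 1 ∧ χ ∣ (X - C 1) ^ m * f := by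
  obtain ⟨q, hq, hnd⟩ := χ.exists_eq_pow_rootMultiplicity_mul_and_not_dvd hχ 1
  have hco : IsCoprime ((X - C (1 : K)) ^ (χ.rootMultiplicity 1 + n + 1)) q :=
    IsCoprime.pow_left (((irreducible_X_sub_C (1 : K)).coprime_iff_not_dvd).mpr hnd)
  obtain ⟨a, b, hab⟩ := hco
  refine ⟨b * q, χ.rootMultiplicity 1 + n + 1, by omega, by omega, ⟨-a, ?_⟩,
    ⟨(X - C 1) ^ (n + 1) * b, ?_⟩⟩
  · rw [← hab]
    ring
  · conv_rhs => rw [hq]
    ring

end

section

variable {K : Type*} [Field K] [CharZero K] {V W : Type*} [AddCommGroup V] [Module K V]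
  [Module.Finite K V] [AddCommGroup W] [Module K W] [Module.Finite K W]

/-- If the supertraces of the powers of `T` and `T'` differ by one, so do the multiplicities of the
eigenvalue one. -/
theorem finrank_eq_add_one (T P : End K V) (T' P' : End K W) (hc : Commute T P)
    (hc' : Commute T' P') (hP : P * P = 1) (hP' : P' * P' = 1)
    (hw : ∀ v, T v = v → P v = -v → v = 0) (hw' : ∀ v, T' v = v → P' v = -v → v = 0)
    (htr : ∀ n : ℕ, LinearMap.trace K V (T ^ n * P) = 1 + LinearMap.trace K W (T' ^ n * P')) :
    finrank K (T.maxGenEigenspace 1) = 1 + finrank K (T'.maxGenEigenspace 1) := by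
  obtain ⟨f, m, hm, hm0, h1, h2⟩ := exists_poly (T.charpoly * T'.charpoly)
    (mul_ne_zero T.charpoly_monic.ne_zero T'.charpoly_monic.ne_zero) (finrank K V + finrank K W)
  have e1 := trace_aeval T P hc hP hw f m h1 ((Dvd.intro _ rfl).trans h2) (by omega)
  have e2 := trace_aeval T' P' hc' hP' hw' f m h1 ((Dvd.intro_left _ rfl).trans h2) (by omega)
  have e3 : ∀ g : K[X], LinearMap.trace K V (aeval T g * P) =
      g.eval 1 + LinearMap.trace K W (aeval T' g * P') := by
    intro g
    induction g using Polynomial.induction_on' with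
    | add p q hp hq =>
      rw [map_add, map_add, add_mul, add_mul, map_add, map_add, hp, hq, eval_add]
      ring
    | monomial n a =>
      rw [aeval_monomial, aeval_monomial, ← Algebra.smul_def, ← Algebra.smul_def, smul_mul_assoc,
        smul_mul_assoc, map_smul, map_smul, htr n, eval_monomial, smul_eq_mul, smul_eq_mul]
      ring
  have e4 : f.eval 1 = 1 := by
    obtain ⟨g, hg⟩ := h1
    have h3 := congrArg (Polynomial.eval 1) hg
    rw [eval_sub, eval_mul, eval_pow, eval_sub, eval_X, eval_C, sub_self, zero_pow hm0.ne',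
      zero_mul, eval_one] at h3
    exact sub_eq_zero.mp h3
  have e5 := e3 f
  rw [e1, e2, e4] at e5
  exact_mod_cast e5

end

end Pool.Agent.R905.Ab
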