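import Pool.Agent.R905.Ab.Uni

/-!
# Abelian rigid tensor categories with a Frobenius: refined rank bounds
-/

set_option autoImplicit false
set_option linter.unusedSectionVars false

open CategoryTheory Limits MonoidalCategory
open Pool.Agent.Y112.KD Pool.Agent.Y112.SR
open Pool.Agent.R905 (en)

namespace Pool.Agent.R905.Ab

universe v u w

section

variable {C : Type u} [Category.{v} C] [Abelian C] [Linear ℚ C] [MonoidalCategory C]
  [MonoidalPreadditive C] [MonoidalLinear ℚ C] [SymmetricCategory C] [RightRigidCategory C]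
  {K : Type w} [Field K] {R : SuperRealisation C K} (Φ : Frobenius R)

/-- Non zero morphisms to the unit are epimorphisms. -/
theorem epi_of_ne_zero (hU : UnitQ C) {N : C} (g : N ⟶ 𝟙_ C) (hg : g ≠ 0) : Epi g := by
  apply Preadditive.epi_of_cokernel_zero
  by_contra hne
  have hm := mono_of_ne_zero hU (cokernel.π g) hne
  apply hg
  rw [← cancel_mono (cokernel.π g), cokernel.condition, zero_comp]

/-- The kernel of a non zero morphism to the unit. -/
theorem Frobenius.mult_kernel (hU : UnitQ C) {N : C} (g : N ⟶ 𝟙_ C) [Epi g] :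
    Φ.mult N = 1 + Φ.mult (kernel g) := by
  have hK := R_charZero R
  have h1 := R.finite N
  have h2 := R.finite (kernel g)
  let S : ShortComplex C := ShortComplex.mk (kernel.ι g) g (kernel.condition g)
  have hS : S.ShortExact :=
    { exact := ShortComplex.exact_of_f_is_kernel _ (kernelIsKernel g)
      mono_f := inferInstanceAs (Mono (kernel.ι g))
      epi_g := inferInstanceAs (Epi g) }
  refine finrank_eq_add_one _ (R.par N).hom _ (R.par (kernel g)).hom (Φ.commute N)
    (Φ.commute _) (par_mul_par N) (par_mul_par _) (Φ.weight N) (Φ.weight _) fun n => ?_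
  rw [← trace_pw Φ hU, ← trace_pw Φ hU]
  let φ : S ⟶ S :=
    { τ₁ := Φ.pw n _
      τ₂ := Φ.pw n _
      τ₃ := Φ.pw n _
      comm₁₂ := (Φ.pw_natural n _).symm
      comm₂₃ := (Φ.pw_natural n _).symm }
  have h3 := trq_additive hU hS φ
  have h4 : trq hU S.X₃ φ.τ₃ = 1 := by
    change trq hU (𝟙_ C) (Φ.pw n (𝟙_ C)) = 1
    rw [Φ.pw_unit]
    exact trace_unit (R := R) hU
  rw [h4] at h3
  have h5 : trq hU N (Φ.pw n N) = trq hU (kernel g) (Φ.pw n (kernel g)) + 1 := h3
  rw [h5, add_comm]
  push_cast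
  rfl

lemma ker_le_span' (hU : UnitQ C) {N : C} (g : N ⟶ 𝟙_ C) (hg : g ≠ 0) :
    LinearMap.ker (Linear.leftComp ℚ (𝟙_ C) (kernel.ι g)) ≤ Submodule.span ℚ {g} := by
  have hm := epi_of_ne_zero hU g hg
  intro h hh
  have hh' : kernel.ι g ≫ h = 0 := hh
  let S : ShortComplex C := ShortComplex.mk (kernel.ι g) g (kernel.condition g)
  have hS : S.Exact := ShortComplex.exact_of_f_is_kernel _ (kernelIsKernel g)
  have : Epi S.g := hm
  obtain ⟨l, hl⟩ := hS.desc' h hh'
  obtain ⟨q, hq⟩ := hU.ex l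
  rw [Submodule.mem_span_singleton]
  refine ⟨q, ?_⟩
  rw [← hl, hq, Linear.comp_smul]
  exact congrArg (fun z => q • z) (Category.comp_id g).symm

/-- The rank bound for morphisms to the unit. -/
theorem Frobenius.finrank_le' (hU : UnitQ C) (N : C) :
    Module.Finite ℚ (N ⟶ 𝟙_ C) ∧ Module.finrank ℚ (N ⟶ 𝟙_ C) ≤ Φ.mult N := by
  have hfin : ∀ X : C, Module.Finite ℚ (X ⟶ 𝟙_ C) := fun X => hom_finite Φ hU X (𝟙_ C)
  generalize hn : Φ.mult N = n
  induction n using Nat.strong_induction_on generalizing N with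
  | _ n ih =>
    refine ⟨hfin N, ?_⟩
    by_cases h0 : ∀ f : N ⟶ 𝟙_ C, f = 0
    · have : Subsingleton (N ⟶ 𝟙_ C) := ⟨fun a b => by rw [h0 a, h0 b]⟩
      rw [Module.finrank_zero_of_subsingleton]
      exact Nat.zero_le _
    · push Not at h0
      obtain ⟨g, hg⟩ := h0
      have hm := epi_of_ne_zero hU g hg
      have h1 := Φ.mult_kernel hU g
      obtain ⟨_, h3⟩ := ih (Φ.mult (kernel g)) (by omega) (kernel g) rfl
      have hker := ker_le_span' hU g hg
      have h4 := (Linear.leftComp ℚ (𝟙_ C) (kernel.ι g)).finrank_range_add_finrank_ker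
      have h2 := hfin (kernel g)
      have h5 : Module.finrank ℚ (LinearMap.range (Linear.leftComp ℚ (𝟙_ C) (kernel.ι g))) ≤
          Φ.mult (kernel g) := (Submodule.finrank_le _).trans h3
      have h6 : Module.finrank ℚ (LinearMap.ker (Linear.leftComp ℚ (𝟙_ C) (kernel.ι g))) ≤ 1 :=
        (Submodule.finrank_mono hker).trans ((finrank_span_le_card _).trans (by simp))
      have := hfin N
      omega

/-- Numerically trivial morphisms from the unit and all morphisms to the unit. -/
theorem Frobenius.refined (hU : UnitQ C) (n : ℕ) : ∀ (N : C) (V : Submodule ℚ (𝟙_ C ⟶ N)),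
    n ≤ Module.finrank ℚ V → (∀ f ∈ V, ∀ g : N ⟶ 𝟙_ C, f ≫ g = 0) →
    n + Module.finrank ℚ (N ⟶ 𝟙_ C) ≤ Φ.mult N := by
  induction n with
  | zero =>
    intro N V _ _
    rw [zero_add]
    exact (Φ.finrank_le' hU N).2
  | succ n ih =>
    intro N V h1 h2
    have hfin := (Φ.finrank_le hU N).1
    obtain ⟨f, hfV, hf⟩ : ∃ f ∈ V, f ≠ 0 := by
      by_contra hne
      push Not at hne
      have h3 : V = ⊥ := (Submodule.eq_bot_iff V).2 hne
      rw [h3, finrank_bot] at h1
      omega
    have hm := mono_of_ne_zero hU f hf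
    have h5 := Φ.mult_cokernel hU f
    have hker := ker_le_span hU f hf
    let L : (𝟙_ C ⟶ N) →ₗ[ℚ] (𝟙_ C ⟶ cokernel f) := Linear.rightComp ℚ _ (cokernel.π f)
    have hfin' := (Φ.finrank_le hU (cokernel f)).1
    -- the image of `V`
    have h6 : n ≤ Module.finrank ℚ (V.map L) := by
      have h7 := (L.domRestrict V).finrank_range_add_finrank_ker
      have h8 : Module.finrank ℚ (LinearMap.ker (L.domRestrict V)) ≤ 1 := by
        have h9 : (LinearMap.ker (L.domRestrict V)).map V.subtype ≤ Submodule.span ℚ {f} := by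
          rintro _ ⟨x, hx, rfl⟩
          exact hker hx
        rw [← Submodule.finrank_map_subtype_eq]
        exact (Submodule.finrank_mono h9).trans ((finrank_span_le_card _).trans (by simp))
      rw [LinearMap.range_domRestrict] at h7
      omega
    have h7 := ih (cokernel f) (V.map L) h6 (by
      intro x hx g
      obtain ⟨y, hy, rfl⟩ := hx
      change (y ≫ cokernel.π f) ≫ g = 0
      rw [Category.assoc]
      exact h2 y hy _)
    have h8 : Module.finrank ℚ (N ⟶ 𝟙_ C) ≤ Module.finrank ℚ (cokernel f ⟶ 𝟙_ C) := by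
      have hfin2 := (Φ.finrank_le' hU (cokernel f)).1
      have h9 : Function.Surjective (Linear.leftComp ℚ (𝟙_ C) (cokernel.π f)) := by
        intro g
        exact ⟨cokernel.desc f g (h2 f hfV g), cokernel.π_desc _ _ _⟩
      exact LinearMap.finrank_le_finrank_of_surjective h9
    omega

/-- Numerically trivial morphisms to the unit and all morphisms from the unit. -/
theorem Frobenius.refined' (hU : UnitQ C) (n : ℕ) : ∀ (N : C) (V : Submodule ℚ (N ⟶ 𝟙_ C)),
    n ≤ Module.finrank ℚ V → (∀ g ∈ V, ∀ f : 𝟙_ C ⟶ N, f ≫ g = 0) →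
    n + Module.finrank ℚ (𝟙_ C ⟶ N) ≤ Φ.mult N := by
  induction n with
  | zero =>
    intro N V _ _
    rw [zero_add]
    exact (Φ.finrank_le hU N).2
  | succ n ih =>
    intro N V h1 h2
    have hfin := (Φ.finrank_le' hU N).1
    obtain ⟨g, hgV, hg⟩ : ∃ g ∈ V, g ≠ 0 := by
      by_contra hne
      push Not at hne
      have h3 : V = ⊥ := (Submodule.eq_bot_iff V).2 hne
      rw [h3, finrank_bot] at h1
      omega
    have hm := epi_of_ne_zero hU g hg
    have h5 := Φ.mult_kernel hU g
    have hker := ker_le_span' hU g hg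
    let L : (N ⟶ 𝟙_ C) →ₗ[ℚ] (kernel g ⟶ 𝟙_ C) := Linear.leftComp ℚ _ (kernel.ι g)
    have hfin' := (Φ.finrank_le' hU (kernel g)).1
    have h6 : n ≤ Module.finrank ℚ (V.map L) := by
      have h7 := (L.domRestrict V).finrank_range_add_finrank_ker
      have h8 : Module.finrank ℚ (LinearMap.ker (L.domRestrict V)) ≤ 1 := by
        have h9 : (LinearMap.ker (L.domRestrict V)).map V.subtype ≤ Submodule.span ℚ {g} := by
          rintro _ ⟨x, hx, rfl⟩
          exact hker hx
        rw [← Submodule.finrank_map_subtype_eq]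
        exact (Submodule.finrank_mono h9).trans ((finrank_span_le_card _).trans (by simp))
      rw [LinearMap.range_domRestrict] at h7
      omega
    have h7 := ih (kernel g) (V.map L) h6 (by
      intro x hx f
      obtain ⟨y, hy, rfl⟩ := hx
      change f ≫ kernel.ι g ≫ y = 0
      rw [← Category.assoc]
      exact h2 y hy _)
    have h8 : Module.finrank ℚ (𝟙_ C ⟶ N) ≤ Module.finrank ℚ (𝟙_ C ⟶ kernel g) := by
      have hfin2 := (Φ.finrank_le hU (kernel g)).1
      have h9 : Function.Surjective (Linear.rightComp ℚ (𝟙_ C) (kernel.ι g)) := by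
        intro f
        exact ⟨kernel.lift g f (h2 g hgV f), kernel.lift_ι _ _ _⟩
      exact LinearMap.finrank_le_finrank_of_surjective h9
    omega

/-- The multiplicity of a direct summand. -/
lemma Frobenius.mult_retract {M N : C} (i : M ⟶ N) (r : N ⟶ M) (hir : i ≫ r = 𝟙 M) :
    Φ.mult M ≤ Φ.mult N := by
  have hfin := R.finite N
  have hfin' := R.finite M
  have hinj : Function.Injective (R.H.map i).hom := by
    intro x y hxy
    have h1 : ∀ z, (R.H.map r).hom ((R.H.map i).hom z) = z := by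
      intro z
      rw [← LinearMap.comp_apply, ← ModuleCat.hom_comp, ← Functor.map_comp, hir,
        CategoryTheory.Functor.map_id]
      rfl
    rw [← h1 x, ← h1 y, hxy]
  have hcomm : ∀ z, (R.H.map (Φ.app N)).hom ((R.H.map i).hom z) =
      (R.H.map i).hom ((R.H.map (Φ.app M)).hom z) := by
    intro z
    rw [← LinearMap.comp_apply, ← LinearMap.comp_apply, ← ModuleCat.hom_comp,
      ← ModuleCat.hom_comp, ← Functor.map_comp, ← Functor.map_comp, Φ.natural]
  have hle : (Module.End.maxGenEigenspace (R.H.map (Φ.app M)).hom 1).map (R.H.map i).hom ≤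
      Module.End.maxGenEigenspace (R.H.map (Φ.app N)).hom 1 := by
    rintro _ ⟨z, hz, rfl⟩
    rw [SetLike.mem_coe, Module.End.mem_maxGenEigenspace] at hz
    obtain ⟨k, hk⟩ := hz
    rw [Module.End.mem_maxGenEigenspace]
    refine ⟨k, ?_⟩
    have h2 : ∀ (k : ℕ) (z : R.H.obj M),
        ((((R.H.map (Φ.app N)).hom : Module.End K (R.H.obj N)) - (1 : K) • 1) ^ k)
          ((R.H.map i).hom z) = (R.H.map i).hom
        (((((R.H.map (Φ.app M)).hom : Module.End K (R.H.obj M)) - (1 : K) • 1) ^ k) z) := by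
      intro k
      induction k with
      | zero => intro z; rfl
      | succ k ih =>
        intro z
        rw [pow_succ, pow_succ, Module.End.mul_apply, Module.End.mul_apply, ← ih]
        congr 1
        simp only [LinearMap.sub_apply, hcomm, map_sub, one_smul, Module.End.one_apply]
    rw [h2, hk, map_zero]
  rw [Frobenius.mult, (Submodule.equivMapOfInjective _ hinj _).finrank_eq]
  exact Submodule.finrank_mono hle

/-- If the rank bound is an equality then non zero morphisms from the unit are numerically non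
trivial. -/
theorem Frobenius.nontrivial_of_full (hU : UnitQ C) (N : C)
    (h : Φ.mult N ≤ Module.finrank ℚ (𝟙_ C ⟶ N)) (f : 𝟙_ C ⟶ N) (hf : f ≠ 0) :
    ∃ g : N ⟶ 𝟙_ C, f ≫ g ≠ 0 := by
  have : Module.Finite ℚ (End N) := hom_finite Φ hU N N
  obtain ⟨k, g, h1, h2⟩ := exists_idem (en (Φ.app N) - 1)
  set e : End N := g * (en (Φ.app N) - 1) ^ (k + 1) with he
  have hid : ((1 - e : End N) : N ⟶ N) ≫ ((1 - e : End N) : N ⟶ N) = (1 - e : End N) := by
    have h3 : (1 - e) * (1 - e) = 1 - e := by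
      rw [sub_mul, mul_sub, mul_sub, h1]
      simp
    exact h3
  have := Idempotents.isIdempotentComplete_of_abelian C
  obtain ⟨N', j, r, h4, h5⟩ := IsIdempotentComplete.idempotents_split N _ hid
  -- all morphisms from the unit factor through `N'`
  have h6 : ∀ a : 𝟙_ C ⟶ N, a ≫ r ≫ j = a := by
    intro a
    rw [h5]
    have h7 : a ≫ (e : N ⟶ N) = 0 := by
      have h8 : (e : N ⟶ N) = (Φ.dl (k + 1) N : N ⟶ N) ≫ (g : N ⟶ N) := rfl
      have h9 : a ≫ (Φ.dl (k + 1) N : N ⟶ N) = 0 := by
        rw [Φ.dl_natural]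
        have h10 : (Φ.dl (k + 1) (𝟙_ C) : 𝟙_ C ⟶ 𝟙_ C) = 0 := by
          change ((en (Φ.app (𝟙_ C)) - 1) ^ (k + 1) : End (𝟙_ C)) = 0
          rw [Φ.unit]
          have h11 : (en (𝟙 (𝟙_ C)) - 1 : End (𝟙_ C)) = 0 := sub_self _
          rw [h11, zero_pow (Nat.succ_ne_zero k)]
        rw [h10, zero_comp]
      rw [h8, ← Category.assoc, h9, zero_comp]
    have h8 : a ≫ ((1 - e : End N) : N ⟶ N) = a ≫ 𝟙 N - a ≫ (e : N ⟶ N) :=
      Preadditive.comp_sub a (𝟙 N) e
    rw [h8, h7, sub_zero, Category.comp_id]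
  have hfin' := (Φ.finrank_le hU N').1
  have h7 : Module.finrank ℚ (𝟙_ C ⟶ N) ≤ Module.finrank ℚ (𝟙_ C ⟶ N') := by
    have h8 : Function.Injective (Linear.rightComp ℚ (𝟙_ C) r) := by
      intro a b hab
      have h9 : a ≫ r = b ≫ r := hab
      rw [← h6 a, ← h6 b, ← Category.assoc, h9, Category.assoc]
    exact LinearMap.finrank_le_finrank_of_injective h8
  have h8 : Φ.Uni N' := by
    refine ⟨k + 1, ?_⟩
    have h9 : ((Φ.dl (k + 1) N : End N) : N ⟶ N) = (e : N ⟶ N) ≫ (Φ.dl (k + 1) N : N ⟶ N) := h2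
    have h10 : r ≫ (Φ.dl (k + 1) N' : N' ⟶ N') = (Φ.dl (k + 1) N : N ⟶ N) ≫ r := Φ.dl_natural _ r
    have h11 : j ≫ (e : N ⟶ N) = 0 := by
      have h12 : (e : N ⟶ N) = 𝟙 N - r ≫ j := by
        rw [h5]
        exact (sub_sub_cancel (1 : End N) e).symm
      rw [h12, Preadditive.comp_sub, Category.comp_id, ← Category.assoc, h4, Category.id_comp,
        sub_self]
    have h12 : (Φ.dl (k + 1) N' : N' ⟶ N') = j ≫ (Φ.dl (k + 1) N : N ⟶ N) ≫ r := by
      rw [← h10, ← Category.assoc, h4, Category.id_comp]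
    have h13 : (Φ.dl (k + 1) N' : N' ⟶ N') = 0 := by
      rw [h12, h9, Category.assoc, ← Category.assoc j, h11, zero_comp]
    exact h13
  have h9 := Φ.mult_retract j r h4
  obtain ⟨g', hg'⟩ := Φ.nontrivial hU (Φ.mult N') N' h8 rfl (by omega) (f ≫ r) (by
    intro h10
    apply hf
    rw [← h6 f, ← Category.assoc, h10, zero_comp])
  exact ⟨r ≫ g', by rwa [← Category.assoc]⟩

end

end Pool.Agent.R905.Ab
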