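import Pool.Agent.Y112.KD.Real

/-!
# Abelian rigid symmetric tensor categories: exactness of the tensor product
-/

set_option autoImplicit false
set_option linter.unusedSectionVars false

open CategoryTheory Limits MonoidalCategory

namespace Pool.Agent.R905.Ab

universe v u

section

variable {C : Type u} [Category.{v} C] [Abelian C] [MonoidalCategory C] [MonoidalPreadditive C]
  [SymmetricCategory C] [RightRigidCategory C]

lemma preservesColimits (X : C) : PreservesFiniteColimits (tensorRight X) :=
  have := (tensorRightAdjunction X Xᘁ).leftAdjoint_preservesColimits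
  ⟨fun _ _ _ => inferInstance⟩

lemma preservesLimits (X : C) : PreservesFiniteLimits (tensorRight X) :=
  letI : ExactPairing Xᘁ X := BraidedCategory.exactPairing_swap X Xᘁ
  have := (tensorRightAdjunction Xᘁ X).rightAdjoint_preservesLimits
  ⟨fun _ _ _ => inferInstance⟩

lemma epi_whiskerRight {Y Z : C} (f : Y ⟶ Z) [Epi f] (X : C) : Epi (f ▷ X) := by
  have := preservesColimits X
  exact inferInstanceAs (Epi ((tensorRight X).map f))

lemma mono_whiskerRight {Y Z : C} (f : Y ⟶ Z) [Mono f] (X : C) : Mono (f ▷ X) := by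
  have := preservesLimits X
  exact inferInstanceAs (Mono ((tensorRight X).map f))

lemma epi_whiskerLeft {Y Z : C} (f : Y ⟶ Z) [Epi f] (X : C) : Epi (X ◁ f) := by
  have h1 : X ◁ f = (β_ X Y).hom ≫ f ▷ X ≫ (β_ X Z).inv := by simp
  have := epi_whiskerRight f X
  rw [h1]
  infer_instance

lemma mono_whiskerLeft {Y Z : C} (f : Y ⟶ Z) [Mono f] (X : C) : Mono (X ◁ f) := by
  have h1 : X ◁ f = (β_ X Y).hom ≫ f ▷ X ≫ (β_ X Z).inv := by simp
  have := mono_whiskerRight f X
  rw [h1]
  infer_instance

/-- Lifting through the kernel after tensoring. -/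
lemma exists_lift_whiskerRight {S : ShortComplex C} (hS : S.ShortExact) (X : C) {T : C}
    (x : T ⟶ S.X₂ ⊗ X) (hx : x ≫ S.g ▷ X = 0) : ∃ s : T ⟶ S.X₁ ⊗ X, s ≫ S.f ▷ X = x := by
  have h1 := preservesColimits X
  have h2 := preservesLimits X
  have h3 := hS.map_of_exact (tensorRight X)
  have := h3.mono_f
  exact ⟨h3.exact.lift x hx, h3.exact.lift_f x hx⟩

lemma mate_zero (X Y : C) : ((0 : X ⟶ Y)ᘁ) = 0 := by
  simp [rightAdjointMate]

end

end Pool.Agent.R905.Ab
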