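import Pool.Agent.R905.Ab.Rank
import Pool.Agent.R905.Div

/-!
# Abelian rigid tensor categories with a Frobenius: Kimura finite-dimensionality
-/

set_option autoImplicit false
set_option linter.unusedSectionVars false

open CategoryTheory Limits MonoidalCategory
open Pool.Agent.Y112.KD Pool.Agent.Y112.SR
open Pool.Agent.Y116.MT (tr nm nm_recover)
open Pool.Agent.TH829.Kim (F F_succ)

namespace Pool.Agent.R905.Ab

universe v u w

/-- Fitting's lemma for one element. -/
lemma exists_idem {A : Type*} [Ring A] [Algebra ℚ A] [Module.Finite ℚ A] (f : A) :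
    ∃ (k : ℕ) (g : A), (g * f ^ (k + 1)) * (g * f ^ (k + 1)) = g * f ^ (k + 1) ∧
      f ^ (k + 1) = f ^ (k + 1) * (g * f ^ (k + 1)) := by
  have hint : IsIntegral ℚ f := IsIntegral.of_finite ℚ f
  have hne := minpoly.ne_zero hint
  obtain ⟨q, hq, hnd⟩ := (minpoly ℚ f).exists_eq_pow_rootMultiplicity_mul_and_not_dvd hne 0
  rw [Polynomial.C_0, sub_zero] at hq hnd
  generalize (minpoly ℚ f).rootMultiplicity 0 = k at hq
  have hco : IsCoprime (Polynomial.X ^ (k + 1) : Polynomial ℚ) q :=
    IsCoprime.pow_left ((Polynomial.irreducible_X.coprime_iff_not_dvd).mpr hnd)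
  obtain ⟨a, b, hab⟩ := hco
  have h0 : Polynomial.aeval f (Polynomial.X ^ k * q) = 0 := by
    rw [← hq]
    exact minpoly.aeval ℚ f
  have h1 : ∀ p : Polynomial ℚ, Polynomial.X ^ k * q ∣ p → Polynomial.aeval f p = 0 := by
    rintro p ⟨r, rfl⟩
    rw [map_mul, h0, zero_mul]
  refine ⟨k, Polynomial.aeval f a, ?_, ?_⟩
  · have h2 := h1 (a * Polynomial.X ^ (k + 1) * (a * Polynomial.X ^ (k + 1)) -
      a * Polynomial.X ^ (k + 1)) ⟨-(a * b * Polynomial.X), by
        have h3 : a * Polynomial.X ^ (k + 1) = 1 - b * q := by rw [← hab]; ring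
        calc _ = -(a * Polynomial.X ^ (k + 1) * (1 - a * Polynomial.X ^ (k + 1))) := by ring
          _ = -(a * Polynomial.X ^ (k + 1) * (b * q)) := by rw [h3]; ring
          _ = _ := by ring⟩
    simpa [sub_eq_zero] using h2
  · have h2 := h1 (Polynomial.X ^ (k + 1) - Polynomial.X ^ (k + 1) *
      (a * Polynomial.X ^ (k + 1))) ⟨b * Polynomial.X, by
        have h3 : a * Polynomial.X ^ (k + 1) = 1 - b * q := by rw [← hab]; ring
        rw [h3]
        ring⟩
    simpa [sub_eq_zero] using h2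

section

variable {C : Type u} [Category.{v} C] [Abelian C] [Linear ℚ C] [MonoidalCategory C]
  [MonoidalPreadditive C] [MonoidalLinear ℚ C] [SymmetricCategory C] [RightRigidCategory C]
  {K : Type w} [Field K] {R : SuperRealisation C K} (Φ : Frobenius R)

lemma nm_inj {M N : C} {f g : M ⟶ N} (h : nm f = nm g) : f = g := by
  rw [nm_recover f, h, ← nm_recover g]

/-- The name of a morphism, as a linear map. -/
def nmL (M N : C) : (M ⟶ N) →ₗ[ℚ] (𝟙_ C ⟶ N ⊗ Mᘁ) where
  toFun f := nm f
  map_add' f g := by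
    simp only [nm, MonoidalPreadditive.add_whiskerRight, Preadditive.comp_add]
  map_smul' c f := by
    simp only [nm, MonoidalLinear.smul_whiskerRight, Linear.comp_smul, RingHom.id_apply]

include Φ in
/-- All spaces of morphisms are finite dimensional. -/
theorem hom_finite (hU : UnitQ C) (M N : C) : Module.Finite ℚ (M ⟶ N) :=
  have := (Φ.finrank_le hU (N ⊗ Mᘁ)).1
  Module.Finite.of_injective (nmL M N) fun _ _ h => nm_inj h

include Φ in
/-- The realisation is conservative. -/
theorem id_eq_zero (hU : UnitQ C) {P : C} (hP : IsZero (R.H.obj P)) : 𝟙 P = 0 := by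
  obtain ⟨h1, h2⟩ := Φ.finrank_le hU (P ⊗ Pᘁ)
  have h3 : IsZero (R.H.obj (P ⊗ Pᘁ)) := by
    have e : R.H.obj (P ⊗ Pᘁ) ≅ R.H.obj P ⊗ R.H.obj Pᘁ := (Functor.Monoidal.μIso R.H P Pᘁ).symm
    refine IsZero.of_iso ?_ e
    rw [IsZero.iff_id_eq_zero, ← id_whiskerRight, hP.eq_of_src (𝟙 (R.H.obj P)) 0]
    exact (tensorRight (R.H.obj Pᘁ)).map_zero _ _
  have h4 : Φ.mult (P ⊗ Pᘁ) = 0 := by
    have h5 : Subsingleton (R.H.obj (P ⊗ Pᘁ)) := ModuleCat.subsingleton_of_isZero h3
    exact Module.finrank_zero_of_subsingleton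
  rw [h4, Nat.le_zero, Module.finrank_zero_iff] at h2
  apply nm_inj
  exact Subsingleton.elim _ _

include Φ in
lemma idem_eq_zero (hU : UnitQ C) {M : C} (e : M ⟶ M) (he : e ≫ e = e) (h0 : R.H.map e = 0) :
    e = 0 := by
  have := Idempotents.isIdempotentComplete_of_abelian C
  obtain ⟨Q, j, q, h1, h2⟩ := IsIdempotentComplete.idempotents_split M e he
  have h3 : IsZero (R.H.obj Q) := by
    rw [IsZero.iff_id_eq_zero, ← CategoryTheory.Functor.map_id]
    have h4 : 𝟙 Q = j ≫ e ≫ q := by
      rw [← h2, Category.assoc, h1, Category.comp_id, h1]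
    rw [h4, Functor.map_comp, Functor.map_comp, h0, zero_comp, comp_zero]
  have h4 := id_eq_zero Φ hU h3
  rw [← h2, ← Category.id_comp j, h4, zero_comp, comp_zero]

include Φ in
/-- Endomorphisms with zero realisation are nilpotent. -/
theorem homNil (hU : UnitQ C) (M : C) : HomNil R M := by
  intro f hf
  have : Module.Finite ℚ (End M) := hom_finite Φ hU M M
  obtain ⟨k, g, h1, h2⟩ := exists_idem f
  have h3 : (g * f ^ (k + 1) : End M) = 0 := by
    refine idem_eq_zero Φ hU (g * f ^ (k + 1) : End M) h1 ?_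
    rw [pow_succ', End.mul_def, End.mul_def, Functor.map_comp, Functor.map_comp, hf, comp_zero,
      zero_comp]
  refine ⟨k + 1, ?_⟩
  rw [h2, h3, mul_zero]

include R in
lemma ff_eq (hU : UnitQ C) (X : C) (n : ℕ) (x : tp X n ⟶ tp X n) :
    ff X n x = trq hU (tp X n) x • 𝟙 _ := by
  induction n with
  | zero =>
    obtain ⟨q, hq⟩ := hU.ex x
    change x = _
    have h1 : trq hU (𝟙_ C) x = q := by
      rw [hq]
      have h2 := (trq hU (𝟙_ C)).map_smul q (𝟙 (𝟙_ C))
      refine h2.trans ?_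
      rw [trace_unit (R := R) hU, smul_eq_mul, mul_one]
    refine hq.trans ?_
    congr 1
    exact h1.symm
  | succ n ih =>
    change ff X n (ptr x) = _
    rw [ih, trq_ptr R hU]

lemma par_tp {X : C} {d : K} (hX : R.par X = d • 𝟙 _) (n : ℕ) :
    R.par (tp X n) = (d ^ n) • 𝟙 _ := by
  induction n with
  | zero =>
    change R.par (𝟙_ C) = _
    rw [R.par_unit, pow_zero, one_smul]
  | succ n ih =>
    rw [pow_succ]
    exact par_tensor_eq R ih hX

include Φ in
/-- The exterior (symmetric) powers of an even (odd) object vanish in high degrees. -/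
theorem asym_eq_zero (hU : UnitQ C) {X : C} {d : ℚ} (hd : d * d = 1)
    (hX : R.par X = (d : K) • 𝟙 _) :
    asym (-d) X (Module.finrank K (R.H.obj X) + 1) = 0 := by
  have hc := R_charZero R
  have hη : (-d) * (-d) = 1 := by rw [← hd]; ring
  set n := Module.finrank K (R.H.obj X) + 1 with hn
  have e1 : gg (-d) n (fun _ : Fin n => (1 : End X)) = (n.factorial : ℚ) • asym (-d) X n := by
    rw [gg]
    have h3 : ∀ m : ℕ, Dn m (fun _ : Fin m => 𝟙 X) = 𝟙 _ := by
      intro m
      induction m with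
      | zero => rfl
      | succ m ih => rw [Dn_succ, ih, id_tensorHom_id]
    have h4 : Dn n (fun i : Fin n => ((fun _ : Fin n => (1 : End X)) i : X ⟶ X)) = 𝟙 _ := h3 n
    rw [h4, Category.id_comp]
  have e2 := ff_gg hU hη n (fun _ : Fin n => (1 : End X))
  rw [ff_eq (R := R) hU, F_one, trq_one R hU d hX] at e2
  have e3 := hU.inj e2
  have e4 : ∏ i ∈ Finset.range n, (d * (Module.finrank K (R.H.obj X) : ℚ) + -d * (i : ℚ)) = 0 := by
    refine Finset.prod_eq_zero (i := Module.finrank K (R.H.obj X)) (by simp [hn]) (by ring)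
  rw [e4, e1] at e3
  have e5 : trq hU (tp X n) (asym (-d) X n) = 0 := by
    have h1 := (trq hU (tp X n)).map_smul (n.factorial : ℚ) (asym (-d) X n)
    rw [h1, smul_eq_mul] at e3
    exact (mul_eq_zero.1 e3).resolve_left (by exact_mod_cast n.factorial_ne_zero)
  have hi : asym (-d) X n ≫ asym (-d) X n = asym (-d) X n := asym_idem hη X n
  have := Idempotents.isIdempotentComplete_of_abelian C
  obtain ⟨Q, j, q, h1, h2⟩ := IsIdempotentComplete.idempotents_split _ _ hi
  have e6 : trq hU Q (𝟙 Q) = 0 := by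
    rw [← h1, trq_comm' R hU, h2]
    exact e5
  have hQ : R.par Q = (((d ^ n : ℚ)) : K) • 𝟙 _ := by
    have h3 : R.par Q = R.H.map j ≫ R.par (tp X n) ≫ R.H.map q := by
      rw [← Category.assoc, R.par_natural, Category.assoc, ← Functor.map_comp, h1]
      simp
    rw [h3, par_tp hX, Linear.smul_comp, Linear.comp_smul, Category.id_comp, ← Functor.map_comp,
      h1]
    simp
  have e7 := trq_one R hU (d ^ n) hQ
  have e8 : (d ^ n : ℚ) * Module.finrank K (R.H.obj Q) = 0 := e7.symm.trans e6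
  have hd0 : d ≠ 0 := fun h => by simp [h] at hd
  have e9 : Module.finrank K (R.H.obj Q) = 0 := by
    exact_mod_cast (mul_eq_zero.1 e8).resolve_left (pow_ne_zero n hd0)
  have hZ : IsZero (R.H.obj Q) := by
    by_contra hne
    exact finrank_ne_zero R hne e9
  have e10 := id_eq_zero Φ hU hZ
  rw [← h2, ← Category.id_comp j, e10, zero_comp, comp_zero]

include Φ in
/-- All objects are finite-dimensional in the sense of Kimura. -/
theorem isKimuraFinite (hU : UnitQ C) {M : C} (hM : R.CPlus M) : IsKimuraFinite M := by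
  have hc := R_charZero R
  have := Idempotents.isIdempotentComplete_of_abelian C
  obtain ⟨E, O, i, r, i', r', h1, h2, h3, h4, h5⟩ := exists_parts R hM (homNil Φ hU M)
  refine (isKimuraFinite_iff M).2 ⟨E, O, i, r, i', r', h1, h2, h3,
    ⟨Module.finrank K (R.H.obj E) + 1, ?_⟩, ⟨Module.finrank K (R.H.obj O) + 1, ?_⟩⟩
  · exact asym_eq_zero Φ hU (d := 1) (by norm_num) (by rw [h4]; norm_num)
  · have h6 := asym_eq_zero Φ hU (X := O) (d := -1) (by norm_num) (by rw [h5]; norm_num)
    rwa [neg_neg] at h6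

end

end Pool.Agent.R905.Ab
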