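import Pool.Agent.R905.Ab.Unit
import Pool.Agent.R905.Ab.Count

/-!
# Abelian rigid tensor categories with a Frobenius: the rank bound
-/

set_option autoImplicit false
set_option linter.unusedSectionVars false

open CategoryTheory Limits MonoidalCategory
open Pool.Agent.Y112.KD Pool.Agent.Y112.SR
open Pool.Agent.Y116.MT (tr nm nm_recover)

namespace Pool.Agent.R905.Ab

universe v u w

/-- A Frobenius for the realisation `R`: an endomorphism of the identity functor which is the
identity on the unit object (naturality means that it commutes with all morphisms) and such that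
`1` is not an eigenvalue of its realisation on the odd part of any object. -/
structure Frobenius {C : Type u} [Category.{v} C] [Preadditive C] [MonoidalCategory C]
    [SymmetricCategory C] {K : Type w} [Field K] (R : SuperRealisation C K) where
  /-- the Frobenius endomorphism of the object `X` -/
  app (X : C) : X ⟶ X
  natural {X Y : C} (f : X ⟶ Y) : f ≫ app Y = app X ≫ f
  unit : app (𝟙_ C) = 𝟙 _
  weight (X : C) (v : R.H.obj X) :
    (R.H.map (app X)).hom v = v → (R.par X).hom v = -v → v = 0

/-- The multiplicity of the eigenvalue `1` of the Frobenius on the realisation of `X`. -/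
noncomputable def Frobenius.mult {C : Type u} [Category.{v} C] [Preadditive C]
    [MonoidalCategory C] [SymmetricCategory C] {K : Type w} [Field K] {R : SuperRealisation C K}
    (F : Frobenius R) (X : C) : ℕ :=
  Module.finrank K (Module.End.maxGenEigenspace (R.H.map (F.app X)).hom 1)

section

variable {C : Type u} [Category.{v} C] [Abelian C] [Linear ℚ C] [MonoidalCategory C]
  [MonoidalPreadditive C] [MonoidalLinear ℚ C] [SymmetricCategory C] [RightRigidCategory C]
  {K : Type w} [Field K] {R : SuperRealisation C K} (F : Frobenius R)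

lemma trq_additive (hU : UnitQ C) {S : ShortComplex C} (hS : S.ShortExact) (φ : S ⟶ S) :
    trq hU S.X₂ φ.τ₂ = trq hU S.X₁ φ.τ₁ + trq hU S.X₃ φ.τ₃ := by
  apply hU.inj
  rw [add_smul, ← trq_spec hU, ← trq_spec hU, ← trq_spec hU]
  exact tr_additive hS φ

/-- Powers of the Frobenius. -/
def Frobenius.pw : ℕ → ∀ X : C, X ⟶ X
  | 0, X => 𝟙 X
  | n + 1, X => F.app X ≫ Frobenius.pw n X

lemma Frobenius.pw_natural (n : ℕ) {X Y : C} (f : X ⟶ Y) : f ≫ F.pw n Y = F.pw n X ≫ f := by
  induction n with
  | zero => exact (Category.comp_id f).trans (Category.id_comp f).symm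
  | succ n ih =>
    change f ≫ F.app Y ≫ F.pw n Y = (F.app X ≫ F.pw n X) ≫ f
    rw [← Category.assoc, F.natural, Category.assoc, ih, Category.assoc]

lemma Frobenius.pw_unit (n : ℕ) : F.pw n (𝟙_ C) = 𝟙 _ := by
  induction n with
  | zero => rfl
  | succ n ih =>
    change F.app _ ≫ F.pw n _ = _
    rw [ih, F.unit, Category.comp_id]

lemma Frobenius.map_pw (n : ℕ) (X : C) :
    (R.H.map (F.pw n X)).hom = ((R.H.map (F.app X)).hom : Module.End K (R.H.obj X)) ^ n := by
  induction n with
  | zero =>
    change (R.H.map (𝟙 X)).hom = _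
    rw [CategoryTheory.Functor.map_id]
    rfl
  | succ n ih =>
    change (R.H.map (F.app X ≫ F.pw n X)).hom = _
    rw [Functor.map_comp, ModuleCat.hom_comp, ih, pow_succ]
    rfl

lemma Frobenius.commute (X : C) :
    Commute ((R.H.map (F.app X)).hom : Module.End K (R.H.obj X)) (R.par X).hom := by
  have h1 := congrArg ModuleCat.Hom.hom (R.par_natural (F.app X))
  rw [ModuleCat.hom_comp, ModuleCat.hom_comp] at h1
  exact h1.symm

lemma par_mul_par (X : C) : ((R.par X).hom : Module.End K (R.H.obj X)) * (R.par X).hom = 1 := by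
  have h1 := congrArg ModuleCat.Hom.hom (R.par_sq X)
  rw [ModuleCat.hom_comp] at h1
  exact h1

lemma trace_pw (hU : UnitQ C) (n : ℕ) (X : C) : ((trq hU X (F.pw n X) : ℚ) : K) =
    LinearMap.trace K (R.H.obj X)
      (((R.H.map (F.app X)).hom : Module.End K (R.H.obj X)) ^ n * (R.par X).hom) := by
  rw [real_tr R hU, ModuleCat.hom_comp, F.map_pw, ((F.commute X).pow_left n).eq]
  rfl

include R in
/-- The realisation of the unit is one dimensional. -/
lemma trace_unit (hU : UnitQ C) : trq hU (𝟙_ C) (𝟙 (𝟙_ C)) = 1 := by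
  have h1 := trq_one R hU (X := 𝟙_ C) 1 (by rw [R.par_unit]; simp)
  have e : R.H.obj (𝟙_ C) ≅ 𝟙_ (ModuleCat.{w} K) := (Functor.Monoidal.εIso R.H).symm
  have h2 : Module.finrank K (R.H.obj (𝟙_ C)) = 1 := by
    rw [LinearEquiv.finrank_eq e.toLinearEquiv]
    exact Module.finrank_self K
  rw [h2] at h1
  refine Eq.trans ?_ (h1.trans (by norm_num))
  rfl

/-- Dividing by a copy of the unit lowers the multiplicity by one. -/
theorem Frobenius.mult_cokernel (hU : UnitQ C) {N : C} (f : 𝟙_ C ⟶ N) [Mono f] :
    F.mult N = 1 + F.mult (cokernel f) := by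
  have hK := R_charZero R
  have h1 := R.finite N
  have h2 := R.finite (cokernel f)
  let S : ShortComplex C := ShortComplex.mk f (cokernel.π f) (cokernel.condition f)
  have hS : S.ShortExact :=
    { exact := ShortComplex.exact_of_g_is_cokernel _ (cokernelIsCokernel f)
      mono_f := inferInstanceAs (Mono f)
      epi_g := inferInstanceAs (Epi (cokernel.π f)) }
  refine finrank_eq_add_one _ (R.par N).hom _ (R.par (cokernel f)).hom (F.commute N)
    (F.commute _) (par_mul_par N) (par_mul_par _) (F.weight N) (F.weight _) fun n => ?_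
  rw [← trace_pw F hU, ← trace_pw F hU]
  let φ : S ⟶ S :=
    { τ₁ := F.pw n _
      τ₂ := F.pw n _
      τ₃ := F.pw n _
      comm₁₂ := (F.pw_natural n _).symm
      comm₂₃ := (F.pw_natural n _).symm }
  have h3 := trq_additive hU hS φ
  have h4 : trq hU S.X₁ φ.τ₁ = 1 := by
    change trq hU (𝟙_ C) (F.pw n (𝟙_ C)) = 1
    rw [F.pw_unit]
    exact trace_unit (R := R) hU
  rw [h4] at h3
  have h5 : trq hU N (F.pw n N) = 1 + trq hU (cokernel f) (F.pw n (cokernel f)) := h3
  rw [h5]
  push_cast
  rfl

/-- The rank bound. -/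
theorem Frobenius.finrank_le (hU : UnitQ C) (N : C) :
    Module.Finite ℚ (𝟙_ C ⟶ N) ∧ Module.finrank ℚ (𝟙_ C ⟶ N) ≤ F.mult N := by
  generalize hn : F.mult N = n
  induction n using Nat.strong_induction_on generalizing N with
  | _ n ih =>
    by_cases h0 : ∀ f : 𝟙_ C ⟶ N, f = 0
    · have : Subsingleton (𝟙_ C ⟶ N) := ⟨fun a b => by rw [h0 a, h0 b]⟩
      refine ⟨inferInstance, ?_⟩
      rw [Module.finrank_zero_of_subsingleton]
      exact Nat.zero_le _
    · push Not at h0
      obtain ⟨f, hf⟩ := h0
      have hm := mono_of_ne_zero hU f hf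
      have h1 := F.mult_cokernel hU f
      obtain ⟨h2, h3⟩ := ih (F.mult (cokernel f)) (by omega) (cokernel f) rfl
      let L : (𝟙_ C ⟶ N) →ₗ[ℚ] (𝟙_ C ⟶ cokernel f) := Linear.rightComp ℚ _ (cokernel.π f)
      have hker : LinearMap.ker L ≤ Submodule.span ℚ {f} := by
        intro g hg
        have hg' : g ≫ cokernel.π f = 0 := hg
        let S : ShortComplex C := ShortComplex.mk f (cokernel.π f) (cokernel.condition f)
        have hS : S.Exact := ShortComplex.exact_of_g_is_cokernel _ (cokernelIsCokernel f)
        have : Mono S.f := hm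
        obtain ⟨l, hl⟩ := hS.lift' g hg'
        obtain ⟨q, hq⟩ := hU.ex l
        rw [Submodule.mem_span_singleton]
        refine ⟨q, ?_⟩
        rw [← hl, hq, Linear.smul_comp]
        exact congrArg (fun z => q • z) (Category.id_comp f).symm
      have hkf : Module.Finite ℚ (LinearMap.ker L) :=
        Submodule.finiteDimensional_of_le hker
      have hqf : Module.Finite ℚ ((𝟙_ C ⟶ N) ⧸ LinearMap.ker L) :=
        Module.Finite.equiv L.quotKerEquivRange.symm
      have hfin : Module.Finite ℚ (𝟙_ C ⟶ N) :=
        Module.Finite.of_submodule_quotient (LinearMap.ker L)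
      refine ⟨hfin, ?_⟩
      have h4 := L.finrank_range_add_finrank_ker
      have h5 : Module.finrank ℚ (LinearMap.range L) ≤ F.mult (cokernel f) :=
        (Submodule.finrank_le _).trans h3
      have h6 : Module.finrank ℚ (LinearMap.ker L) ≤ 1 :=
        (Submodule.finrank_mono hker).trans ((finrank_span_le_card _).trans (by simp))
      omega

end

end Pool.Agent.R905.Ab
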