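import Pool.Agent.R905.Ab.Ex

/-!
# Abelian rigid symmetric tensor categories: additivity of the trace, simplicity of the unit
-/

set_option autoImplicit false
set_option linter.unusedSectionVars false

open CategoryTheory Limits MonoidalCategory
open Pool.Agent.Y112.KD
open Pool.Agent.Y116.MT (tr)

namespace Pool.Agent.R905.Ab

universe v u

section

variable {C : Type u} [Category.{v} C] [Abelian C] [MonoidalCategory C] [MonoidalPreadditive C]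
  [SymmetricCategory C] [RightRigidCategory C]

/-- The trace is additive on endomorphisms of short exact sequences. -/
theorem tr_additive {S : ShortComplex C} (hS : S.ShortExact) (φ : S ⟶ S) :
    tr φ.τ₂ = tr φ.τ₁ + tr φ.τ₃ := by
  have hm := hS.mono_f
  have he := hS.epi_g
  have e1 : η_ S.X₂ (S.X₂)ᘁ ≫ φ.τ₂ ▷ (S.X₂)ᘁ ≫ S.g ▷ (S.X₂)ᘁ =
      η_ S.X₃ (S.X₃)ᘁ ≫ φ.τ₃ ▷ (S.X₃)ᘁ ≫ S.X₃ ◁ (S.g)ᘁ := by
    rw [← whisker_exchange, ← Category.assoc (η_ S.X₃ _), coevaluation_comp_rightAdjointMate,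
      Category.assoc, ← comp_whiskerRight, ← comp_whiskerRight, φ.comm₂₃]
  have e2 : η_ S.X₂ (S.X₂)ᘁ ≫ φ.τ₂ ▷ (S.X₂)ᘁ ≫ S.X₂ ◁ (S.f)ᘁ =
      η_ S.X₁ (S.X₁)ᘁ ≫ φ.τ₁ ▷ (S.X₁)ᘁ ≫ S.f ▷ (S.X₁)ᘁ := by
    rw [← whisker_exchange, ← Category.assoc (η_ S.X₂ _), coevaluation_comp_rightAdjointMate,
      Category.assoc, ← comp_whiskerRight, ← comp_whiskerRight, φ.comm₁₂]
  have d1 : (S.X₂ ◁ (S.g)ᘁ) ≫ (β_ S.X₂ (S.X₂)ᘁ).hom ≫ ε_ S.X₂ (S.X₂)ᘁ =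
      S.g ▷ (S.X₃)ᘁ ≫ (β_ S.X₃ (S.X₃)ᘁ).hom ≫ ε_ S.X₃ (S.X₃)ᘁ := by
    rw [BraidedCategory.braiding_naturality_right_assoc, rightAdjointMate_comp_evaluation,
      BraidedCategory.braiding_naturality_left_assoc]
  have d2 : (S.f ▷ (S.X₂)ᘁ) ≫ (β_ S.X₂ (S.X₂)ᘁ).hom ≫ ε_ S.X₂ (S.X₂)ᘁ =
      S.X₁ ◁ (S.f)ᘁ ≫ (β_ S.X₁ (S.X₁)ᘁ).hom ≫ ε_ S.X₁ (S.X₁)ᘁ := by
    rw [BraidedCategory.braiding_naturality_right_assoc, rightAdjointMate_comp_evaluation,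
      BraidedCategory.braiding_naturality_left_assoc]
  have hg := epi_whiskerRight S.g (S.X₃)ᘁ
  -- pull back the name of `φ.τ₃`
  let q : 𝟙_ C ⟶ S.X₃ ⊗ (S.X₃)ᘁ := η_ S.X₃ (S.X₃)ᘁ ≫ φ.τ₃ ▷ (S.X₃)ᘁ
  have hπ : Epi (pullback.fst q (S.g ▷ (S.X₃)ᘁ)) := inferInstance
  have ht := pullback.condition (f := q) (g := S.g ▷ (S.X₃)ᘁ)
  revert hπ ht
  generalize pullback.fst q (S.g ▷ (S.X₃)ᘁ) = π
  generalize pullback.snd q (S.g ▷ (S.X₃)ᘁ) = t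
  intro hπ ht
  obtain ⟨s, hs⟩ := exists_lift_whiskerRight hS (S.X₂)ᘁ
    (π ≫ η_ S.X₂ (S.X₂)ᘁ ≫ φ.τ₂ ▷ (S.X₂)ᘁ - t ≫ S.X₂ ◁ (S.g)ᘁ) (by
      rw [Preadditive.sub_comp, Category.assoc, Category.assoc, e1, sub_eq_zero, Category.assoc,
        whisker_exchange, ← Category.assoc t, ← ht]
      simp only [q, Category.assoc])
  have hs2 : s ≫ S.X₁ ◁ (S.f)ᘁ = π ≫ η_ S.X₁ (S.X₁)ᘁ ≫ φ.τ₁ ▷ (S.X₁)ᘁ := by
    have := mono_whiskerRight S.f (S.X₁)ᘁ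
    rw [← cancel_mono (S.f ▷ (S.X₁)ᘁ)]
    have h0 : (S.X₂ ◁ (S.g)ᘁ) ≫ (S.X₂ ◁ (S.f)ᘁ) = 0 := by
      rw [← MonoidalCategory.whiskerLeft_comp, ← comp_rightAdjointMate, S.zero, mate_zero,
        MonoidalPreadditive.whiskerLeft_zero]
    calc (s ≫ S.X₁ ◁ (S.f)ᘁ) ≫ S.f ▷ (S.X₁)ᘁ = (s ≫ S.f ▷ (S.X₂)ᘁ) ≫ S.X₂ ◁ (S.f)ᘁ := by
          rw [Category.assoc, whisker_exchange, Category.assoc]
      _ = (π ≫ η_ S.X₁ (S.X₁)ᘁ ≫ φ.τ₁ ▷ (S.X₁)ᘁ) ≫ S.f ▷ (S.X₁)ᘁ := by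
          rw [hs, Preadditive.sub_comp, Category.assoc, Category.assoc, Category.assoc, h0,
            comp_zero, sub_zero, e2]
          simp only [Category.assoc]
  rw [← cancel_epi π]
  have h1 : π ≫ tr φ.τ₂ = (s ≫ S.f ▷ (S.X₂)ᘁ + t ≫ S.X₂ ◁ (S.g)ᘁ) ≫
      (β_ S.X₂ (S.X₂)ᘁ).hom ≫ ε_ S.X₂ (S.X₂)ᘁ := by
    rw [hs, sub_add_cancel, tr]
    simp only [Category.assoc]
  rw [h1, Preadditive.add_comp, Preadditive.comp_add, Category.assoc, Category.assoc, d1, d2]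
  congr 1
  · rw [← Category.assoc s, hs2, tr]
    simp only [Category.assoc]
  · rw [← Category.assoc t, ← ht, tr]
    simp only [q, Category.assoc]

end

end Pool.Agent.R905.Ab
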