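import Pool.Agent.R905.Ab.Kim

/-!
# Abelian rigid tensor categories with a Frobenius: unipotent objects
-/

set_option autoImplicit false
set_option linter.unusedSectionVars false

open CategoryTheory Limits MonoidalCategory
open Pool.Agent.Y112.KD Pool.Agent.Y112.SR

namespace Pool.Agent.R905.Ab

universe v u w

section

variable {C : Type u} [Category.{v} C] [Abelian C] [Linear ℚ C] [MonoidalCategory C]
  [MonoidalPreadditive C] [MonoidalLinear ℚ C] [SymmetricCategory C] [RightRigidCategory C]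
  {K : Type w} [Field K] {R : SuperRealisation C K} (Φ : Frobenius R)

lemma ker_le_span (hU : UnitQ C) {N : C} (f : 𝟙_ C ⟶ N) (hf : f ≠ 0) :
    LinearMap.ker (Linear.rightComp ℚ (𝟙_ C) (cokernel.π f)) ≤ Submodule.span ℚ {f} := by
  have hm := mono_of_ne_zero hU f hf
  intro g hg
  have hg' : g ≫ cokernel.π f = 0 := hg
  let S : ShortComplex C := ShortComplex.mk f (cokernel.π f) (cokernel.condition f)
  have hS : S.Exact := ShortComplex.exact_of_g_is_cokernel _ (cokernelIsCokernel f)
  have : Mono S.f := hm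
  obtain ⟨l, hl⟩ := hS.lift' g hg'
  obtain ⟨q, hq⟩ := hU.ex l
  rw [Submodule.mem_span_singleton]
  refine ⟨q, ?_⟩
  rw [← hl, hq, Linear.smul_comp]
  exact congrArg (fun z => q • z) (Category.id_comp f).symm

/-- The powers of `Frobenius - 1`. -/
def Frobenius.dl (n : ℕ) (X : C) : End X := (en (Φ.app X) - 1) ^ n

lemma Frobenius.dl_natural (n : ℕ) {X Y : C} (f : X ⟶ Y) :
    f ≫ (Φ.dl n Y : Y ⟶ Y) = (Φ.dl n X : X ⟶ X) ≫ f := by
  induction n with
  | zero =>
    rw [Frobenius.dl, Frobenius.dl, pow_zero, pow_zero]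
    exact (Category.comp_id f).trans (Category.id_comp f).symm
  | succ n ih =>
    have h1 : ∀ Z : C, (Φ.dl (n + 1) Z : Z ⟶ Z) = (Φ.app Z - 𝟙 Z) ≫ (Φ.dl n Z : Z ⟶ Z) := by
      intro Z
      exact pow_succ _ _
    rw [h1, h1, Preadditive.sub_comp, Preadditive.sub_comp, Preadditive.comp_sub,
      Preadditive.sub_comp, Category.id_comp, Category.id_comp, ← Category.assoc, Φ.natural,
      Category.assoc, ih, Category.assoc]

lemma Frobenius.map_dl (n : ℕ) (X : C) : (R.H.map (Φ.dl n X : X ⟶ X)).hom =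
    (((R.H.map (Φ.app X)).hom : Module.End K (R.H.obj X)) - 1) ^ n := by
  induction n with
  | zero =>
    rw [Frobenius.dl, pow_zero, pow_zero]
    change (R.H.map (𝟙 X)).hom = _
    rw [CategoryTheory.Functor.map_id]
    rfl
  | succ n ih =>
    have h1 : (Φ.dl (n + 1) X : X ⟶ X) = (Φ.app X - 𝟙 X) ≫ (Φ.dl n X : X ⟶ X) := pow_succ _ _
    rw [h1, Functor.map_comp, ModuleCat.hom_comp, ih, pow_succ, Functor.map_sub,
      CategoryTheory.Functor.map_id]
    rfl

/-- The Frobenius is unipotent on `X`. -/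
def Frobenius.Uni (X : C) : Prop := ∃ n, Φ.dl n X = 0

lemma Frobenius.Uni.quot {X Y : C} (h : Φ.Uni X) (p : X ⟶ Y) [Epi p] : Φ.Uni Y := by
  obtain ⟨n, hn⟩ := h
  refine ⟨n, ?_⟩
  have h1 := Φ.dl_natural n p
  rw [hn] at h1
  have h2 : p ≫ (Φ.dl n Y : Y ⟶ Y) = 0 := h1.trans zero_comp
  exact (cancel_epi p).1 (h2.trans comp_zero.symm)

lemma Frobenius.Uni.mult_eq {X : C} (h : Φ.Uni X) :
    Φ.mult X = Module.finrank K (R.H.obj X) := by
  obtain ⟨n, hn⟩ := h
  have h1 := Φ.map_dl n X
  rw [hn] at h1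
  have h2 : (((R.H.map (Φ.app X)).hom : Module.End K (R.H.obj X)) - 1) ^ n = 0 := by
    rw [← h1]
    change (R.H.map (0 : X ⟶ X)).hom = 0
    rw [Functor.map_zero]
    rfl
  have h3 : Module.End.maxGenEigenspace (R.H.map (Φ.app X)).hom 1 = ⊤ := by
    rw [eq_top_iff]
    intro x _
    rw [Module.End.mem_maxGenEigenspace]
    refine ⟨n, ?_⟩
    rw [one_smul, h2]
    rfl
  rw [Frobenius.mult, h3]
  exact finrank_top K _

lemma Frobenius.uni_of_mult (hU : UnitQ C) {X : C}
    (h : Module.finrank K (R.H.obj X) ≤ Φ.mult X) : Φ.Uni X := by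
  have hfin := R.finite X
  have h3 : Module.End.maxGenEigenspace (R.H.map (Φ.app X)).hom 1 = ⊤ :=
    Submodule.eq_top_of_finrank_eq (le_antisymm (Submodule.finrank_le _) h)
  rw [Module.End.maxGenEigenspace_eq_genEigenspace_finrank, Module.End.genEigenspace_nat,
    LinearMap.ker_eq_top, one_smul] at h3
  have h4 : R.H.map (Φ.dl (Module.finrank K (R.H.obj X)) X : X ⟶ X) = 0 := by
    apply ModuleCat.hom_ext
    rw [Φ.map_dl, h3]
    rfl
  obtain ⟨k, hk⟩ := homNil Φ hU X _ h4
  refine ⟨Module.finrank K (R.H.obj X) * k, ?_⟩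
  rw [Frobenius.dl, pow_mul]
  exact hk

/-- If the Frobenius is unipotent and there are enough morphisms from the unit, non zero morphisms
from the unit are numerically non trivial. -/
theorem Frobenius.nontrivial (hU : UnitQ C) (n : ℕ) : ∀ (N : C), Φ.Uni N → Φ.mult N = n →
    n ≤ Module.finrank ℚ (𝟙_ C ⟶ N) → ∀ f : 𝟙_ C ⟶ N, f ≠ 0 → ∃ g : N ⟶ 𝟙_ C, f ≫ g ≠ 0 := by
  induction n with
  | zero =>
    intro N _ h2 _ f hf
    have hm := mono_of_ne_zero hU f hf
    have := Φ.mult_cokernel hU f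
    omega
  | succ n ih =>
    intro N h1 h2 h3 f hf
    have hfin := (Φ.finrank_le hU N).1
    by_cases h4 : (⊤ : Submodule ℚ (𝟙_ C ⟶ N)) ≤ Submodule.span ℚ {f}
    · have hm := mono_of_ne_zero hU f hf
      have h5 := Φ.mult_cokernel hU f
      have h6 : Module.finrank ℚ (𝟙_ C ⟶ N) ≤ 1 := by
        rw [← finrank_top ℚ (𝟙_ C ⟶ N)]
        exact (Submodule.finrank_mono h4).trans ((finrank_span_le_card _).trans (by simp))
      have h7 := (h1.quot Φ (cokernel.π f)).mult_eq
      have h8 : Module.finrank K (R.H.obj (cokernel f)) = 0 := by omega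
      have h9 : IsZero (R.H.obj (cokernel f)) := by
        by_contra hne
        exact finrank_ne_zero R hne h8
      have h10 := id_eq_zero Φ hU h9
      have h11 : Epi f := by
        apply Preadditive.epi_of_cokernel_zero
        rw [← Category.comp_id (cokernel.π f), h10, comp_zero]
      have h12 := isIso_of_mono_of_epi f
      refine ⟨inv f, ?_⟩
      rw [IsIso.hom_inv_id]
      exact hU.ne
    · obtain ⟨h, _, hh⟩ := Set.not_subset.1 h4
      have hh0 : h ≠ 0 := by
        rintro rfl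
        exact hh (Submodule.zero_mem _)
      have hm := mono_of_ne_zero hU h hh0
      have h5 := Φ.mult_cokernel hU h
      have hker := ker_le_span hU h hh0
      let L : (𝟙_ C ⟶ N) →ₗ[ℚ] (𝟙_ C ⟶ cokernel h) := Linear.rightComp ℚ _ (cokernel.π h)
      have h6 := L.finrank_range_add_finrank_ker
      have hfin' := (Φ.finrank_le hU (cokernel h)).1
      have h7 : Module.finrank ℚ (LinearMap.range L) ≤ Module.finrank ℚ (𝟙_ C ⟶ cokernel h) :=
        Submodule.finrank_le _
      have h8 : Module.finrank ℚ (LinearMap.ker L) ≤ 1 :=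
        (Submodule.finrank_mono hker).trans ((finrank_span_le_card _).trans (by simp))
      have h9 : f ≫ cokernel.π h ≠ 0 := by
        intro h10
        have h11 := hker (show f ∈ LinearMap.ker L from h10)
        obtain ⟨q, hq⟩ := Submodule.mem_span_singleton.1 h11
        have hq0 : q ≠ 0 := by
          rintro rfl
          exact hf (by rw [← hq, zero_smul])
        apply hh
        rw [SetLike.mem_coe, Submodule.mem_span_singleton]
        exact ⟨q⁻¹, by rw [← hq, smul_smul, inv_mul_cancel₀ hq0, one_smul]⟩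
      obtain ⟨g, hg⟩ := ih (cokernel h) (h1.quot Φ (cokernel.π h)) (by omega) (by omega)
        (f ≫ cokernel.π h) h9
      exact ⟨cokernel.π h ≫ g, by rwa [← Category.assoc]⟩

end

end Pool.Agent.R905.Ab
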