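import Pool.Agent.R905.Ab.Tr

/-!
# Abelian rigid symmetric tensor categories: simplicity of the unit
-/

set_option autoImplicit false
set_option linter.unusedSectionVars false

open CategoryTheory Limits MonoidalCategory
open Pool.Agent.Y112.KD
open Pool.Agent.Y116.MT (tr nm nm_recover)

namespace Pool.Agent.R905.Ab

universe v u

section

variable {C : Type u} [Category.{v} C] [Abelian C] [MonoidalCategory C] [MonoidalPreadditive C]
  [SymmetricCategory C] [RightRigidCategory C]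

/-- A morphism to the unit which acts as zero on `V` acts as zero on the dual of `V`. -/
lemma whisker_dual_zero {K V : C} (k : K ⟶ 𝟙_ C) (h : k ▷ V = 0) : k ▷ Vᘁ = 0 := by
  have hj : ((λ_ Vᘁ).inv ≫ η_ V Vᘁ ▷ Vᘁ) ≫ ((β_ (V ⊗ Vᘁ) Vᘁ).hom ≫ (α_ Vᘁ V Vᘁ).inv ≫
      ε_ V Vᘁ ▷ Vᘁ ≫ (λ_ Vᘁ).hom) = 𝟙 Vᘁ := by
    rw [Category.assoc, BraidedCategory.braiding_naturality_left_assoc,
      ExactPairing.coevaluation_evaluation_assoc]
    simp
  have h1 : k ▷ Vᘁ = K ◁ ((λ_ Vᘁ).inv ≫ η_ V Vᘁ ▷ Vᘁ) ≫ k ▷ ((V ⊗ Vᘁ) ⊗ Vᘁ) ≫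
      (𝟙_ C) ◁ ((β_ (V ⊗ Vᘁ) Vᘁ).hom ≫ (α_ Vᘁ V Vᘁ).inv ≫ ε_ V Vᘁ ▷ Vᘁ ≫ (λ_ Vᘁ).hom) := by
    rw [← whisker_exchange, ← Category.assoc, ← MonoidalCategory.whiskerLeft_comp, hj,
      MonoidalCategory.whiskerLeft_id, Category.id_comp]
  rw [h1, MonoidalCategory.whiskerRight_tensor, MonoidalCategory.whiskerRight_tensor, h]
  simp

lemma whisker_coker_zero {K V : C} (k : K ⟶ 𝟙_ C) (v : 𝟙_ C ⟶ V) [Epi v] (h : k ≫ v = 0) :
    k ▷ V = 0 := by
  have := epi_whiskerLeft v K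
  rw [← cancel_epi (K ◁ v), whisker_exchange, comp_zero]
  have h1 : (𝟙_ C) ◁ v = (ρ_ _).hom ≫ v ≫ (λ_ V).inv := by
    rw [← unitors_equal]
    simp
  rw [h1, rightUnitor_naturality_assoc, reassoc_of% h]
  simp

variable [Linear ℚ C] [MonoidalLinear ℚ C]

/-- In an abelian rigid tensor category with `End(𝟙) = ℚ`, each non zero morphism from the unit is a
monomorphism. -/
theorem mono_of_ne_zero (hU : UnitQ C) {N : C} (f : 𝟙_ C ⟶ N) (hf : f ≠ 0) : Mono f := by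
  let k := kernel.ι f
  let v := cokernel.π k
  let S : ShortComplex C := ShortComplex.mk k v (cokernel.condition k)
  have hS : S.ShortExact :=
    { exact := ShortComplex.exact_of_g_is_cokernel _ (cokernelIsCokernel k)
      mono_f := inferInstanceAs (Mono (kernel.ι f))
      epi_g := inferInstanceAs (Epi (cokernel.π k)) }
  have hkv : k ≫ v = 0 := cokernel.condition k
  have h1 : k ▷ cokernel k = 0 := whisker_coker_zero k v hkv
  have h2 : k ▷ (cokernel k)ᘁ = 0 := whisker_dual_zero k h1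
  have h3 : IsZero (kernel f ⊗ (cokernel k)ᘁ) := by
    have := mono_whiskerRight k (cokernel k)ᘁ
    rw [IsZero.iff_id_eq_zero, ← cancel_mono (k ▷ (cokernel k)ᘁ), h2, comp_zero, comp_zero]
  have h4 : IsIso (v ▷ (cokernel k)ᘁ) := by
    have p1 := preservesColimits (cokernel k)ᘁ
    have p2 := preservesLimits (cokernel k)ᘁ
    exact (hS.map_of_exact (tensorRight (cokernel k)ᘁ)).isIso_g_iff.mpr h3
  let s' : 𝟙_ C ⟶ 𝟙_ C ⊗ (cokernel k)ᘁ := nm (𝟙 (cokernel k)) ≫ inv (v ▷ (cokernel k)ᘁ)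
  have hs' : s' ≫ v ▷ (cokernel k)ᘁ = nm (𝟙 (cokernel k)) := by simp [s']
  let s : cokernel k ⟶ 𝟙_ C := (λ_ _).inv ≫ (s' ▷ cokernel k) ≫ (α_ _ _ _).hom ≫
    ((𝟙_ C) ◁ ε_ (cokernel k) (cokernel k)ᘁ) ≫ (ρ_ _).hom
  have hs : s ≫ v = 𝟙 _ := by
    conv_rhs => rw [nm_recover (𝟙 (cokernel k)), ← hs']
    simp only [s, Category.assoc, comp_whiskerRight]
    rw [← rightUnitor_naturality, whisker_exchange_assoc, ← associator_naturality_left_assoc]
  obtain ⟨q, hq⟩ := hU.ex (v ≫ s)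
  have h5 : (q - 1) • v = 0 := by
    have h6 : (v ≫ s) ≫ v = v := by rw [Category.assoc, hs, Category.comp_id]
    rw [hq, Linear.smul_comp, Category.id_comp] at h6
    rw [sub_smul, one_smul, h6, sub_self]
  have h7 : v ≠ 0 := by
    intro h8
    apply hf
    have h9 : k ≫ f = 0 := kernel.condition f
    rw [← cokernel.π_desc k f h9]
    change v ≫ _ = 0
    rw [h8, zero_comp]
  have h8 : q = 1 := by
    by_contra hne
    apply h7
    have h9 := congrArg (fun z => (q - 1)⁻¹ • z) h5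
    simpa [smul_smul, inv_mul_cancel₀ (sub_ne_zero.mpr hne)] using h9
  rw [h8, one_smul] at hq
  apply Preadditive.mono_of_kernel_zero
  have h10 : k = (k ≫ v) ≫ s := by rw [Category.assoc, hq, Category.comp_id]
  change k = 0
  rw [h10, hkv, zero_comp]

end

end Pool.Agent.R905.Ab
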